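import Mathlib

/-!
# The fan of ideal tetrahedra: algebra of `sinh (j β)`
-/

namespace Pool.Agent.Helper66.GF

open Complex

/-- `β = a + i b` -/
noncomputable def bt (a b : ℝ) : ℂ := a + b * I

/-- `sinh (j β)` -/
noncomputable def EE (a b : ℝ) (j : ℕ) : ℂ := Complex.sinh (j * bt a b)

/-- `cosh β` -/
noncomputable def ch (a b : ℝ) : ℂ := Complex.cosh (bt a b)

lemma bt_re (a b : ℝ) : (bt a b).re = a := by simp [bt]

lemma bt_im (a b : ℝ) : (bt a b).im = b := by simp [bt]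

lemma sinh_mk (x y : ℝ) : Complex.sinh (x + y * I) =
    ((Real.sinh x * Real.cos y : ℝ) : ℂ) + ((Real.cosh x * Real.sin y : ℝ) : ℂ) * I := by
  rw [Complex.sinh_add, Complex.cosh_mul_I, Complex.sinh_mul_I]
  push_cast
  ring

lemma cosh_mk (x y : ℝ) : Complex.cosh (x + y * I) =
    ((Real.cosh x * Real.cos y : ℝ) : ℂ) + ((Real.sinh x * Real.sin y : ℝ) : ℂ) * I := by
  rw [Complex.cosh_add, Complex.cosh_mul_I, Complex.sinh_mul_I]
  push_cast
  ring

lemma EE_mk (a b : ℝ) (j : ℕ) : EE a b j =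
    ((Real.sinh (j * a) * Real.cos (j * b) : ℝ) : ℂ) +
      ((Real.cosh (j * a) * Real.sin (j * b) : ℝ) : ℂ) * I := by
  unfold EE bt
  rw [← sinh_mk]
  congr 1
  push_cast
  ring

lemma ch_mk (a b : ℝ) : ch a b =
    ((Real.cosh a * Real.cos b : ℝ) : ℂ) + ((Real.sinh a * Real.sin b : ℝ) : ℂ) * I := by
  unfold ch bt
  rw [cosh_mk]

lemma re_mk (x y : ℝ) : ((x : ℂ) + (y : ℂ) * I).re = x := by simp

lemma im_mk (x y : ℝ) : ((x : ℂ) + (y : ℂ) * I).im = y := by simp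

lemma EE_re (a b : ℝ) (j : ℕ) : (EE a b j).re = Real.sinh (j * a) * Real.cos (j * b) := by
  rw [EE_mk, re_mk]

lemma EE_im (a b : ℝ) (j : ℕ) : (EE a b j).im = Real.cosh (j * a) * Real.sin (j * b) := by
  rw [EE_mk, im_mk]

lemma ch_re (a b : ℝ) : (ch a b).re = Real.cosh a * Real.cos b := by
  rw [ch_mk, re_mk]

lemma ch_im (a b : ℝ) : (ch a b).im = Real.sinh a * Real.sin b := by
  rw [ch_mk, im_mk]

lemma EE_normSq (a b : ℝ) (j : ℕ) :
    normSq (EE a b j) = (Real.cosh (2 * (j * a)) - Real.cos (2 * (j * b))) / 2 := by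
  rw [normSq_apply, EE_re, EE_im, Real.cosh_two_mul, Real.cos_two_mul]
  have h1 := Real.cosh_sq (j * a)
  have h2 := Real.sin_sq_add_cos_sq (j * b)
  have h3 : Real.sin (j * b) ^ 2 = 1 - Real.cos (j * b) ^ 2 := by linarith
  have e1 : Real.sinh (j * a) * Real.cos (j * b) * (Real.sinh (j * a) * Real.cos (j * b)) =
    Real.sinh (j * a) ^ 2 * Real.cos (j * b) ^ 2 := by ring
  have e2 : Real.cosh (j * a) * Real.sin (j * b) * (Real.cosh (j * a) * Real.sin (j * b)) =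
    Real.cosh (j * a) ^ 2 * Real.sin (j * b) ^ 2 := by ring
  rw [e1, e2, h3, h1]
  ring

lemma ch_normSq (a b : ℝ) :
    normSq (ch a b) = (Real.cosh (2 * a) + Real.cos (2 * b)) / 2 := by
  rw [normSq_apply, ch_re, ch_im, Real.cosh_two_mul, Real.cos_two_mul]
  have h1 := Real.cosh_sq a
  have h2 := Real.sin_sq_add_cos_sq b
  have h3 : Real.sin b ^ 2 = 1 - Real.cos b ^ 2 := by linarith
  have e1 : Real.cosh a * Real.cos b * (Real.cosh a * Real.cos b) =
    Real.cosh a ^ 2 * Real.cos b ^ 2 := by ring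
  have e2 : Real.sinh a * Real.sin b * (Real.sinh a * Real.sin b) =
    Real.sinh a ^ 2 * Real.sin b ^ 2 := by ring
  rw [e1, e2, h3, h1]
  ring

/-- `E_{j+2} E_j = E_{j+1}^2 - E_1^2` -/
lemma EE_mul (a b : ℝ) (j : ℕ) :
    EE a b (j + 2) * EE a b j = EE a b (j + 1) ^ 2 - EE a b 1 ^ 2 := by
  unfold EE
  have e1 : ((j + 2 : ℕ) : ℂ) * bt a b = ((j + 1 : ℕ) : ℂ) * bt a b + bt a b := by
    push_cast; ring
  have e2 : (j : ℂ) * bt a b = ((j + 1 : ℕ) : ℂ) * bt a b - bt a b := by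
    push_cast; ring
  have e3 : ((1 : ℕ) : ℂ) * bt a b = bt a b := by push_cast; ring
  rw [e1, e2, e3, Complex.sinh_add, Complex.sinh_sub]
  have h1 := Complex.cosh_sq (((j + 1 : ℕ) : ℂ) * bt a b)
  have h2 := Complex.cosh_sq (bt a b)
  linear_combination (Complex.sinh (((j + 1 : ℕ) : ℂ) * bt a b)) ^ 2 * h2 -
    (Complex.sinh (bt a b)) ^ 2 * h1

/-- `E_{j+2} + E_j = 2 cosh β E_{j+1}` -/
lemma EE_add (a b : ℝ) (j : ℕ) :
    EE a b (j + 2) + EE a b j = 2 * ch a b * EE a b (j + 1) := by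
  unfold EE ch
  have e1 : ((j + 2 : ℕ) : ℂ) * bt a b = ((j + 1 : ℕ) : ℂ) * bt a b + bt a b := by
    push_cast; ring
  have e2 : (j : ℂ) * bt a b = ((j + 1 : ℕ) : ℂ) * bt a b - bt a b := by
    push_cast; ring
  rw [e1, e2, Complex.sinh_add, Complex.sinh_sub]
  ring

/-- imaginary part of `E_{j+1} conj E_j` -/
lemma EE_im_succ (a b : ℝ) (j : ℕ) :
    (EE a b (j + 1) * (starRingEnd ℂ) (EE a b j)).im =
      (Real.sinh ((2 * j + 1 : ℕ) * a) * Real.sin b -
        Real.sinh a * Real.sin ((2 * j + 1 : ℕ) * b)) / 2 := by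
  rw [mul_im, conj_re, conj_im, EE_re, EE_im, EE_re, EE_im]
  have e1 : ((2 * j + 1 : ℕ) : ℝ) * a = ((j + 1 : ℕ) : ℝ) * a + j * a := by push_cast; ring
  have e2 : ((2 * j + 1 : ℕ) : ℝ) * b = ((j + 1 : ℕ) : ℝ) * b + j * b := by push_cast; ring
  have e3 : Real.sinh a = Real.sinh (((j + 1 : ℕ) : ℝ) * a - j * a) := by
    congr 1; push_cast; ring
  have e4 : Real.sin b = Real.sin (((j + 1 : ℕ) : ℝ) * b - j * b) := by
    congr 1; push_cast; ring
  rw [e1, e2, e3, e4, Real.sinh_add, Real.sinh_sub, Real.sin_add, Real.sin_sub]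
  ring

lemma sinh_nat_ge {a : ℝ} (ha : 0 < a) (n : ℕ) :
    (n : ℝ) * Real.sinh a ≤ Real.sinh (n * a) := by
  induction n with
  | zero => simp
  | succ n ih =>
    have h1 : ((n + 1 : ℕ) : ℝ) * a = n * a + a := by push_cast; ring
    rw [h1, Real.sinh_add]
    push_cast
    have h2 := Real.one_le_cosh a
    have h3 := Real.one_le_cosh (n * a)
    have h4 : 0 < Real.sinh a := Real.sinh_pos_iff.2 ha
    have h5 : 0 ≤ (n : ℝ) * Real.sinh a := by positivity
    nlinarith [mul_le_mul_of_nonneg_right h3 h4.le, mul_nonneg (h5.trans ih) (sub_nonneg.2 h2)]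

lemma sinh_nat_gt {a : ℝ} (ha : 0 < a) {n : ℕ} (hn : 2 ≤ n) :
    (n : ℝ) * Real.sinh a < Real.sinh (n * a) := by
  obtain ⟨m, rfl⟩ : ∃ m, n = m + 1 := ⟨n - 1, by omega⟩
  have hm : 1 ≤ m := by omega
  have h1 : ((m + 1 : ℕ) : ℝ) * a = m * a + a := by push_cast; ring
  rw [h1, Real.sinh_add]
  push_cast
  have h2 : 1 < Real.cosh a := Real.one_lt_cosh.2 ha.ne'
  have h3 := Real.one_le_cosh (m * a)
  have h4 : 0 < Real.sinh a := Real.sinh_pos_iff.2 ha
  have h5 := sinh_nat_ge ha m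
  have h7 : (1 : ℝ) ≤ m := by exact_mod_cast hm
  have h6 : 0 < Real.sinh (m * a) := Real.sinh_pos_iff.2 (by positivity)
  nlinarith [mul_le_mul_of_nonneg_right h3 h4.le, mul_pos h6 (sub_pos.2 h2)]

lemma abs_sin_nat_le {b : ℝ} (hb : 0 ≤ Real.sin b) (n : ℕ) :
    |Real.sin (n * b)| ≤ n * Real.sin b := by
  induction n with
  | zero => simp
  | succ n ih =>
    have h1 : ((n + 1 : ℕ) : ℝ) * b = n * b + b := by push_cast; ring
    rw [h1, Real.sin_add]
    push_cast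
    calc |Real.sin (n * b) * Real.cos b + Real.cos (n * b) * Real.sin b|
        ≤ |Real.sin (n * b) * Real.cos b| + |Real.cos (n * b) * Real.sin b| := abs_add_le _ _
      _ ≤ |Real.sin (n * b)| * 1 + 1 * Real.sin b := by
          rw [abs_mul, abs_mul, abs_of_nonneg hb]
          gcongr
          · exact Real.abs_cos_le_one b
          · exact Real.abs_cos_le_one _
      _ ≤ (n + 1) * Real.sin b := by linarith

lemma EE_im_succ_pos {a b : ℝ} (ha : 0 < a) (hb : 0 < Real.sin b) {j : ℕ} (hj : 1 ≤ j) :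
    0 < (EE a b (j + 1) * (starRingEnd ℂ) (EE a b j)).im := by
  rw [EE_im_succ]
  have h1 := sinh_nat_gt ha (n := 2 * j + 1) (by omega)
  have h2 := abs_sin_nat_le hb.le (2 * j + 1)
  have h3 : 0 < Real.sinh a := Real.sinh_pos_iff.2 ha
  have h4 := le_abs_self (Real.sin ((2 * j + 1 : ℕ) * b))
  have h5 : Real.sinh a * Real.sin ((2 * j + 1 : ℕ) * b) ≤
      Real.sinh a * (((2 * j + 1 : ℕ) : ℝ) * Real.sin b) :=
    mul_le_mul_of_nonneg_left (h4.trans h2) h3.le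
  have h6 := mul_lt_mul_of_pos_right h1 hb
  nlinarith

end Pool.Agent.Helper66.GF
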