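import Pool.Agent.Helper66.GF.Curve

/-!
# Positivity of the dihedral angles on the curve
-/

namespace Pool.Agent.Helper66.GF

open Complex

lemma ang_of_le {r : ℕ} {a b : ℝ} {j : ℕ} (h : j ≤ r) :
    ang r a b j = psi a b j - psi a b 1 := by
  unfold ang; rw [if_pos h]

lemma ang_succ (r : ℕ) (a b : ℝ) :
    ang r a b (r + 1) = 2 * kp a b + 2 * (psi a b r - psi a b 1) -
      (psi a b (r - 1) - psi a b 1) := by
  unfold ang; rw [if_neg (by omega)]

/-- the third parameter -/
noncomputable def tau (r : ℕ) (a b : ℝ) : ℝ :=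
  1 / 2 + (psi a b (r - 1) - psi a b r - kp a b) / Real.pi

namespace Crv

variable {r : ℕ} {a b : ℝ} (C : Crv r a b)

include C

lemma ang_one : ang r a b 1 = 0 := by
  rw [ang_of_le (by have := C.hr; omega)]; ring

lemma norm_pos {j : ℕ} (hj : 1 ≤ j) (hjr : j ≤ r + 1) : 0 < ‖EE a b j‖ :=
  norm_pos_iff.2 (C.EEne hj hjr)

lemma polar_ang {j : ℕ} (hjr : j ≤ r + 1) :
    EE a b j = (‖EE a b j‖ : ℂ) * exp (((ang r a b j + psi a b 1 : ℝ) : ℂ) * I) := by
  have hr := C.hr
  rcases Nat.lt_or_ge j (r + 1) with h | h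
  · rw [ang_of_le (by omega)]
    have : psi a b j - psi a b 1 + psi a b 1 = arg (EE a b j) := by unfold psi; ring
    rw [this]
    exact polar _
  · have hj' : j = r + 1 := by omega
    rw [hj', ang_succ]
    have h1 := C.csq
    have hQ := C.norm_pos (j := r - 1) (by omega) (by omega)
    have hR := C.norm_pos (j := r) (by omega) (by omega)
    have hc : 0 < ‖ch a b‖ := norm_pos_iff.2 C.ch_ne
    have pc := polar (ch a b)
    have pR := polar (EE a b r)
    have pQ := polar (EE a b (r - 1))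
    have pRc : (starRingEnd ℂ) (EE a b r) = (‖EE a b r‖ : ℂ) * exp (-(psi a b r * I)) := by
      conv_lhs => rw [pR]
      rw [map_mul, conj_ofReal, ← exp_conj, map_mul, conj_ofReal, conj_I]
      congr 2
      unfold psi
      ring
    rw [pRc] at h1
    set P := EE a b (r + 1)
    set nQ := ‖EE a b (r - 1)‖ with hnQ
    set nR := ‖EE a b r‖ with hnR
    set nc := ‖ch a b‖ with hnc
    rw [C.norm_eq, ← hnQ]
    have hQ' : (nQ : ℂ) ≠ 0 := by exact_mod_cast hQ.ne'
    have hR' : (nR : ℂ) ≠ 0 := by exact_mod_cast hR.ne'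
    have hc' : (nc : ℂ) ≠ 0 := by exact_mod_cast hc.ne'
    rw [pc, pQ] at h1
    have e1 : exp (((2 * kp a b + 2 * (psi a b r - psi a b 1) - (psi a b (r - 1) - psi a b 1) +
        psi a b 1 : ℝ) : ℂ) * I) * (exp (-(psi a b r * I)) ^ 2 *
          exp (arg (EE a b (r - 1)) * I)) = exp (arg (ch a b) * I) ^ 2 := by
      rw [← exp_nat_mul, ← exp_nat_mul, ← exp_add, ← exp_add]
      congr 1
      unfold psi kp
      push_cast
      ring
    have hE : exp (-(psi a b r * I)) ^ 2 * exp (arg (EE a b (r - 1)) * I) ≠ 0 :=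
      mul_ne_zero (pow_ne_zero _ (exp_ne_zero _)) (exp_ne_zero _)
    have hK : (nc : ℂ) ^ 2 * nR ^ 2 * nQ *
        (exp (-(psi a b r * I)) ^ 2 * exp (arg (EE a b (r - 1)) * I)) ≠ 0 := by
      positivity
    apply mul_left_cancel₀ hK
    linear_combination (-1 : ℂ) * h1 - (nc : ℂ) ^ 2 * nR ^ 2 * nQ ^ 2 * e1

lemma sines_ang {j : ℕ} (hjr : j + 1 ≤ r) :
    ‖EE a b j‖ * ‖EE a b (j + 2)‖ * Real.sin (ang r a b j + ang r a b (j + 2)) =
      ‖EE a b (j + 1)‖ ^ 2 * Real.sin (2 * ang r a b (j + 1)) ∧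
    ‖EE a b j‖ * ‖EE a b (j + 2)‖ *
      Real.sin (ang r a b j + ang r a b (j + 2) - 2 * ang r a b (j + 1)) =
      ‖EE a b 1‖ ^ 2 * Real.sin (2 * ang r a b (j + 1)) := by
  have hr := C.hr
  have hmul := EE_mul a b j
  have p0 := C.polar_ang (j := j) (by omega)
  have p1 := C.polar_ang (j := j + 1) (by omega)
  have p2 := C.polar_ang (j := j + 2) (by omega)
  have pF := C.polar_ang (j := 1) (by omega)
  rw [C.ang_one, zero_add] at pF
  have h : ((‖EE a b j‖ : ℂ) * exp (((ang r a b j + psi a b 1 : ℝ) : ℂ) * I)) *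
      ((‖EE a b (j + 2)‖ : ℂ) * exp (((ang r a b (j + 2) + psi a b 1 : ℝ) : ℂ) * I)) =
      ((‖EE a b (j + 1)‖ : ℂ) * exp (((ang r a b (j + 1) + psi a b 1 : ℝ) : ℂ) * I)) ^ 2 -
      ((‖EE a b 1‖ : ℂ) * exp ((psi a b 1 : ℂ) * I)) ^ 2 := by
    rw [← p0, ← p1, ← p2, ← pF, ← hmul]; ring
  have := sines h
  have e1 : ang r a b j + psi a b 1 + (ang r a b (j + 2) + psi a b 1) - 2 * psi a b 1 =
    ang r a b j + ang r a b (j + 2) := by ring
  have e2 : ang r a b j + psi a b 1 + (ang r a b (j + 2) + psi a b 1) -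
    2 * (ang r a b (j + 1) + psi a b 1) =
    ang r a b j + ang r a b (j + 2) - 2 * ang r a b (j + 1) := by ring
  have e3 : 2 * (ang r a b (j + 1) + psi a b 1 - psi a b 1) = 2 * ang r a b (j + 1) := by ring
  rw [e1, e2, e3] at this
  exact this

lemma ang_nonneg {j : ℕ} (hj : 1 ≤ j) (hjr : j ≤ r) : 0 ≤ ang r a b j := by
  rw [ang_of_le hjr]
  have := psi_mono C.apos C.bpos C.bhi le_rfl hj hjr
  linarith

lemma ang_pos {j : ℕ} (hj : 2 ≤ j) (hjr : j ≤ r) : 0 < ang r a b j := by
  rw [ang_of_le hjr]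
  have h1 := psi_mono C.apos C.bpos C.bhi (by omega : 1 ≤ 2) hj hjr
  have h2 := psi_lt_succ C.apos C.bpos C.bhi le_rfl (by omega : 1 + 1 ≤ r)
  norm_num at h2
  linarith

lemma ang_mono {i j : ℕ} (hi : 1 ≤ i) (hij : i ≤ j) (hjr : j ≤ r) :
    ang r a b i ≤ ang r a b j := by
  rw [ang_of_le hjr, ang_of_le (hij.trans hjr)]
  have := psi_mono C.apos C.bpos C.bhi hi hij hjr
  linarith

lemma ang_hinge : ang r a b (r - 1) + ang r a b (r + 1) - 2 * ang r a b r = 2 * kp a b := by
  rw [ang_succ, ang_of_le (by omega), ang_of_le le_rfl]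
  ring

lemma sin_ang_r : 0 < Real.sin (2 * ang r a b r) := by
  have hr := C.hr
  obtain ⟨n, rfl⟩ : ∃ n, r = n + 1 := ⟨r - 1, by omega⟩
  have h := (C.sines_ang (j := n) le_rfl).2
  have h2 := C.ang_hinge
  simp only [Nat.add_sub_cancel] at h2
  rw [show n + 1 + 1 = n + 2 by ring] at h2
  rw [h2] at h
  have hk := C.kp_mem
  have h3 : 0 < Real.sin (2 * kp a b) :=
    Real.sin_pos_of_pos_of_lt_pi (by linarith) (by linarith)
  have n0 := C.norm_pos (j := n) (by omega) (by omega)
  have n2 := C.norm_pos (j := n + 2) (by omega) (by omega)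
  have n1 := C.norm_pos (j := 1) (by omega) (by omega)
  have h4 : 0 < ‖EE a b 1‖ ^ 2 * Real.sin (2 * ang (n + 1) a b (n + 1)) := by
    rw [← h]; positivity
  exact (pos_iff_pos_of_mul_pos h4).1 (by positivity)

lemma ang_r_lt : ang r a b r < Real.pi / 2 := by
  have hr := C.hr
  have h1 := C.sin_ang_r
  by_contra hneg
  push Not at hneg
  have h2 := psi_mem (a := a) C.bpos C.bhi (by omega : 1 ≤ r) le_rfl
  have h3 := psi_mem (a := a) C.bpos C.bhi (by omega : 1 ≤ 1) (by omega : 1 ≤ r)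
  have h4 : ang r a b r < Real.pi := by
    rw [ang_of_le le_rfl]; linarith
  have h5 : Real.sin (2 * ang r a b r) = - Real.sin (2 * ang r a b r - Real.pi) := by
    rw [Real.sin_sub_pi]; ring
  have h6 : 0 ≤ Real.sin (2 * ang r a b r - Real.pi) :=
    Real.sin_nonneg_of_nonneg_of_le_pi (by linarith) (by linarith)
  linarith

lemma ang_lt {j : ℕ} (hj : 1 ≤ j) (hjr : j ≤ r) : ang r a b j < Real.pi / 2 :=
  lt_of_le_of_lt (C.ang_mono hj hjr le_rfl) C.ang_r_lt

lemma hinge_lt : ang r a b r + kp a b < Real.pi / 2 := by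
  have hr := C.hr
  obtain ⟨n, rfl⟩ : ∃ n, r = n + 1 := ⟨r - 1, by omega⟩
  have h := (C.sines_ang (j := n) le_rfl).1
  have h2 := C.ang_hinge
  simp only [Nat.add_sub_cancel] at h2
  rw [show n + 1 + 1 = n + 2 by ring] at h2
  have e : ang (n + 1) a b n + ang (n + 1) a b (n + 2) =
    2 * ang (n + 1) a b (n + 1) + 2 * kp a b := by linarith
  rw [e] at h
  have hs := C.sin_ang_r
  have n0 := C.norm_pos (j := n) (by omega) (by omega)
  have n2 := C.norm_pos (j := n + 2) (by omega) (by omega)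
  have n1 := C.norm_pos (j := n + 1) (by omega) (by omega)
  have h4 : 0 < ‖EE a b n‖ * ‖EE a b (n + 2)‖ *
      Real.sin (2 * ang (n + 1) a b (n + 1) + 2 * kp a b) := by
    rw [h]; positivity
  have h5 : 0 < Real.sin (2 * ang (n + 1) a b (n + 1) + 2 * kp a b) :=
    (pos_iff_pos_of_mul_pos h4).1 (by positivity)
  by_contra hneg
  push Not at hneg
  have hk := C.kp_mem
  have ha := C.ang_r_lt
  have h6 : Real.sin (2 * ang (n + 1) a b (n + 1) + 2 * kp a b) =
      - Real.sin (2 * ang (n + 1) a b (n + 1) + 2 * kp a b - Real.pi) := by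
    rw [Real.sin_sub_pi]; ring
  have h7 : 0 ≤ Real.sin (2 * ang (n + 1) a b (n + 1) + 2 * kp a b - Real.pi) :=
    Real.sin_nonneg_of_nonneg_of_le_pi (by linarith) (by linarith)
  linarith

/-- positivity of the three angles -/
lemma angles_pos {j : ℕ} (hj : 1 ≤ j) (hjr : j + 1 ≤ r) :
    0 < Real.pi - (ang r a b j + ang r a b (j + 2)) ∧
    0 < ang r a b j + ang r a b (j + 2) - 2 * ang r a b (j + 1) ∧
    0 < 2 * ang r a b (j + 1) := by
  have hr := C.hr
  have hz : 0 < ang r a b (j + 1) := C.ang_pos (by omega) hjr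
  rcases Nat.lt_or_ge (j + 1) r with h | h
  · have h0 := C.ang_nonneg hj (by omega)
    have h1 := C.ang_lt hj (by omega)
    have h2 := C.ang_pos (j := j + 2) (by omega) (by omega)
    have h3 := C.ang_lt (j := j + 2) (by omega) (by omega)
    have h4 := C.ang_lt (j := j + 1) (by omega) (by omega)
    refine ⟨by linarith, ?_, by linarith⟩
    have hs := (C.sines_ang (j := j) hjr).2
    have n0 := C.norm_pos (j := j) (by omega) (by omega)
    have n2 := C.norm_pos (j := j + 2) (by omega) (by omega)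
    have n1 := C.norm_pos (j := 1) (by omega) (by omega)
    have h5 : 0 < Real.sin (2 * ang r a b (j + 1)) :=
      Real.sin_pos_of_pos_of_lt_pi (by linarith) (by linarith)
    have h6 : 0 < ‖EE a b j‖ * ‖EE a b (j + 2)‖ *
        Real.sin (ang r a b j + ang r a b (j + 2) - 2 * ang r a b (j + 1)) := by
      rw [hs]; positivity
    have h7 : 0 < Real.sin (ang r a b j + ang r a b (j + 2) - 2 * ang r a b (j + 1)) :=
      (pos_iff_pos_of_mul_pos h6).1 (by positivity)
    by_contra hneg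
    push Not at hneg
    have : Real.sin (ang r a b j + ang r a b (j + 2) - 2 * ang r a b (j + 1)) ≤ 0 :=
      Real.sin_nonpos_of_nonpos_of_neg_pi_le (by linarith) (by linarith)
    linarith
  · have hj' : r = j + 1 := by omega
    subst hj'
    have h2 := C.ang_hinge
    simp only [Nat.add_sub_cancel] at h2
    rw [show j + 1 + 1 = j + 2 by ring] at h2
    have hk := C.kp_mem
    have hh := C.hinge_lt
    refine ⟨by linarith, by linarith, by linarith⟩

/-- the logarithmic law of sines -/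
lemma log_sines {j : ℕ} (hj : 1 ≤ j) (hjr : j + 1 ≤ r) :
    Real.log (2 * Real.sin (Real.pi - (ang r a b j + ang r a b (j + 2)))) -
      Real.log (2 * Real.sin (ang r a b j + ang r a b (j + 2) - 2 * ang r a b (j + 1))) =
      2 * ss a b (j + 1) ∧
    Real.log (2 * Real.sin (2 * ang r a b (j + 1))) -
      Real.log (2 * Real.sin (ang r a b j + ang r a b (j + 2) - 2 * ang r a b (j + 1))) =
      ss a b j + ss a b (j + 2) := by
  obtain ⟨p1, p2, p3⟩ := C.angles_pos hj hjr
  obtain ⟨s1, s2⟩ := C.sines_ang (j := j) hjr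
  have n0 := C.norm_pos (j := j) (by omega) (by omega)
  have n2 := C.norm_pos (j := j + 2) (by omega) (by omega)
  have n3 := C.norm_pos (j := j + 1) (by omega) (by omega)
  have n1 := C.norm_pos (j := 1) (by omega) (by omega)
  rw [Real.sin_pi_sub]
  set A := ang r a b j + ang r a b (j + 2)
  set B := ang r a b (j + 1)
  have hA : 0 < Real.sin A := Real.sin_pos_of_pos_of_lt_pi (by linarith) (by linarith)
  have hY : 0 < Real.sin (A - 2 * B) := Real.sin_pos_of_pos_of_lt_pi (by linarith) (by linarith)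
  have hZ : 0 < Real.sin (2 * B) := Real.sin_pos_of_pos_of_lt_pi (by linarith) (by linarith)
  have l1 := congrArg Real.log s1
  have l2 := congrArg Real.log s2
  rw [Real.log_mul (by positivity) hA.ne', Real.log_mul n0.ne' n2.ne',
    Real.log_mul (by positivity) hZ.ne', Real.log_pow] at l1
  rw [Real.log_mul (by positivity) hY.ne', Real.log_mul n0.ne' n2.ne',
    Real.log_mul (by positivity) hZ.ne', Real.log_pow] at l2
  rw [Real.log_mul two_ne_zero hA.ne', Real.log_mul two_ne_zero hY.ne',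
    Real.log_mul two_ne_zero hZ.ne']
  unfold ss
  push_cast at l1 l2
  constructor <;> linarith

lemma tau_mem : 0 < tau r a b ∧ tau r a b < 1 / 2 := by
  have hr := C.hr
  have hpi := Real.pi_pos
  have h1 := psi_lt_succ C.apos C.bpos C.bhi (j := r - 1) (by omega) (by omega)
  rw [show r - 1 + 1 = r by omega] at h1
  have h2 := psi_mono C.apos C.bpos C.bhi le_rfl (by omega : 1 ≤ r - 1) (by omega : r - 1 ≤ r)
  have h3 := C.hinge_lt
  rw [ang_of_le le_rfl] at h3
  have hk := C.kp_mem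
  unfold tau
  constructor
  · have : -(1 / 2 : ℝ) < (psi a b (r - 1) - psi a b r - kp a b) / Real.pi := by
      rw [lt_div_iff₀ hpi]; linarith
    linarith
  · have : (psi a b (r - 1) - psi a b r - kp a b) / Real.pi < 0 :=
      div_neg_of_neg_of_pos (by linarith) hpi
    linarith

lemma T_eq : exp (((2 * Real.pi * tau r a b : ℝ) : ℂ) * I) * EE a b (r + 1) =
    - EE a b (r - 1) := by
  have hr := C.hr
  have hpi := Real.pi_pos
  have p1 := C.polar_ang (j := r + 1) (by omega)
  have p2 := C.polar_ang (j := r - 1) (by omega)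
  rw [p1, p2, C.norm_eq]
  have e : 2 * Real.pi * tau r a b = Real.pi + 2 * (psi a b (r - 1) - psi a b r - kp a b) := by
    unfold tau; field_simp
  rw [e, ang_succ, ang_of_le (by omega)]
  have : exp (((Real.pi + 2 * (psi a b (r - 1) - psi a b r - kp a b) : ℝ) : ℂ) * I) *
      exp (((2 * kp a b + 2 * (psi a b r - psi a b 1) - (psi a b (r - 1) - psi a b 1) +
        psi a b 1 : ℝ) : ℂ) * I) =
      - exp (((psi a b (r - 1) - psi a b 1 + psi a b 1 : ℝ) : ℂ) * I) := by
    rw [← exp_add, neg_eq_neg_one_mul, ← exp_pi_mul_I, ← exp_add]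
    congr 1
    push_cast
    ring
  linear_combination (‖EE a b (r - 1)‖ : ℂ) * this

end Crv

end Pool.Agent.Helper66.GF
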