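import Pool.Agent.Helper66.GF.Alg

/-!
# The curve `|E_{r+1}| = |E_{r-1}|` and the dihedral angles
-/

namespace Pool.Agent.Helper66.GF

open Complex

/-- argument of `E_j` -/
noncomputable def psi (a b : ℝ) (j : ℕ) : ℝ := Complex.arg (EE a b j)

/-- argument of `cosh β` -/
noncomputable def kp (a b : ℝ) : ℝ := Complex.arg (ch a b)

/-- the angle of `E_j`, for `j ≤ r + 1` -/
noncomputable def ang (r : ℕ) (a b : ℝ) (j : ℕ) : ℝ :=
  if j ≤ r then psi a b j - psi a b 1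
  else 2 * kp a b + 2 * (psi a b r - psi a b 1) - (psi a b (r - 1) - psi a b 1)

/-- logarithm of `|E_j / E_1|` -/
noncomputable def ss (a b : ℝ) (j : ℕ) : ℝ := Real.log ‖EE a b j‖ - Real.log ‖EE a b 1‖

/-- The curve. -/
structure Crv (r : ℕ) (a b : ℝ) : Prop where
  hr : 3 ≤ r
  apos : 0 < a
  blo : Real.pi < 2 * (r * b)
  bhi : r * b < Real.pi
  eq : Real.sinh (2 * (r * a)) * Real.sinh (2 * a) =
    -(Real.sin (2 * (r * b)) * Real.sin (2 * b))

lemma polar (z : ℂ) : z = (‖z‖ : ℂ) * exp (arg z * I) := (norm_mul_exp_arg_mul_I z).symm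

/-- law of sines -/
lemma sines {m0 m1 m2 mF t0 t1 t2 g : ℝ}
    (h : ((m0 : ℂ) * exp (t0 * I)) * ((m2 : ℂ) * exp (t2 * I)) =
      ((m1 : ℂ) * exp (t1 * I)) ^ 2 - ((mF : ℂ) * exp (g * I)) ^ 2) :
    m0 * m2 * Real.sin (t0 + t2 - 2 * g) = m1 ^ 2 * Real.sin (2 * (t1 - g)) ∧
    m0 * m2 * Real.sin (t0 + t2 - 2 * t1) = mF ^ 2 * Real.sin (2 * (t1 - g)) := by
  have e1 : ((m0 : ℂ) * exp (t0 * I)) * ((m2 : ℂ) * exp (t2 * I)) =
      ((m0 * m2 * Real.cos (t0 + t2) : ℝ) : ℂ) + ((m0 * m2 * Real.sin (t0 + t2) : ℝ) : ℂ) * I := by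
    have : exp (t0 * I) * exp (t2 * I) = exp (((t0 + t2 : ℝ) : ℂ) * I) := by
      rw [← exp_add]; congr 1; push_cast; ring
    rw [show ((m0 : ℂ) * exp (t0 * I)) * ((m2 : ℂ) * exp (t2 * I)) =
      (m0 * m2 : ℂ) * (exp (t0 * I) * exp (t2 * I)) by ring, this, exp_mul_I]
    push_cast
    ring
  have e2 : ∀ m t : ℝ, ((m : ℂ) * exp (t * I)) ^ 2 =
      ((m ^ 2 * Real.cos (2 * t) : ℝ) : ℂ) + ((m ^ 2 * Real.sin (2 * t) : ℝ) : ℂ) * I := by
    intro m t
    have : exp (t * I) ^ 2 = exp (((2 * t : ℝ) : ℂ) * I) := by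
      rw [← exp_nat_mul]; congr 1; push_cast; ring
    rw [mul_pow, this, exp_mul_I]
    push_cast
    ring
  rw [e1, e2, e2] at h
  have hre := congrArg Complex.re h
  have him := congrArg Complex.im h
  rw [sub_re, re_mk, re_mk, re_mk] at hre
  rw [sub_im, im_mk, im_mk, im_mk] at him
  constructor
  · rw [show 2 * (t1 - g) = 2 * t1 - 2 * g by ring, Real.sin_sub (t0 + t2), Real.sin_sub (2 * t1)]
    linear_combination Real.cos (2 * g) * him - Real.sin (2 * g) * hre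
  · rw [show 2 * (t1 - g) = 2 * t1 - 2 * g by ring, Real.sin_sub (t0 + t2), Real.sin_sub (2 * t1)]
    linear_combination Real.cos (2 * t1) * him - Real.sin (2 * t1) * hre

lemma arg_pos_of_im {z : ℂ} (h : 0 < z.im) : 0 < arg z ∧ arg z < Real.pi := by
  constructor
  · refine lt_of_le_of_ne (arg_nonneg_iff.2 h.le) ?_
    intro h0
    have := arg_eq_zero_iff.1 h0.symm
    linarith [this.2]
  · refine lt_of_le_of_ne (arg_le_pi z) ?_
    intro h0
    have := arg_eq_pi_iff.1 h0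
    linarith [this.2]

section reg

variable {r : ℕ} {a b : ℝ}

lemma sin_nat_pos (hb : 0 < b) (hrb : r * b < Real.pi) {j : ℕ} (hj : 1 ≤ j) (hjr : j ≤ r) :
    0 < Real.sin (j * b) := by
  apply Real.sin_pos_of_pos_of_lt_pi
  · have : (0 : ℝ) < j := by exact_mod_cast hj
    positivity
  · have : (j : ℝ) ≤ r := by exact_mod_cast hjr
    nlinarith

lemma EE_im_pos (hb : 0 < b) (hrb : r * b < Real.pi) {j : ℕ} (hj : 1 ≤ j) (hjr : j ≤ r) :
    0 < (EE a b j).im := by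
  rw [EE_im]
  have := sin_nat_pos hb hrb hj hjr
  have := Real.cosh_pos (j * a)
  positivity

lemma EE_ne (hb : 0 < b) (hrb : r * b < Real.pi) {j : ℕ} (hj : 1 ≤ j) (hjr : j ≤ r) :
    EE a b j ≠ 0 := by
  intro h
  have := EE_im_pos (a := a) hb hrb hj hjr
  rw [h] at this
  simp at this

lemma psi_mem (hb : 0 < b) (hrb : r * b < Real.pi) {j : ℕ} (hj : 1 ≤ j) (hjr : j ≤ r) :
    0 < psi a b j ∧ psi a b j < Real.pi := arg_pos_of_im (EE_im_pos hb hrb hj hjr)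

lemma psi_lt_succ (ha : 0 < a) (hb : 0 < b) (hrb : r * b < Real.pi) {j : ℕ} (hj : 1 ≤ j)
    (hjr : j + 1 ≤ r) : psi a b j < psi a b (j + 1) := by
  have h1 := psi_mem (a := a) hb hrb hj (by omega : j ≤ r)
  have h2 := psi_mem (a := a) hb hrb (by omega : 1 ≤ j + 1) hjr
  have hs : 0 < Real.sin b := by
    have := sin_nat_pos hb hrb le_rfl (by omega : 1 ≤ r)
    simpa using this
  have h3 := EE_im_succ_pos ha hs hj
  have e : EE a b (j + 1) * (starRingEnd ℂ) (EE a b j) =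
      ((‖EE a b (j + 1)‖ * ‖EE a b j‖ * Real.cos (psi a b (j + 1) - psi a b j) : ℝ) : ℂ) +
      ((‖EE a b (j + 1)‖ * ‖EE a b j‖ * Real.sin (psi a b (j + 1) - psi a b j) : ℝ) : ℂ) * I := by
    conv_lhs => rw [polar (EE a b (j + 1)), polar (EE a b j)]
    rw [map_mul, conj_ofReal, ← exp_conj, map_mul, conj_ofReal, conj_I]
    have : exp ((arg (EE a b (j + 1)) : ℂ) * I) * exp ((arg (EE a b j) : ℂ) * -I) =
        exp (((psi a b (j + 1) - psi a b j : ℝ) : ℂ) * I) := by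
      rw [← exp_add]; congr 1; unfold psi; push_cast; ring
    rw [show (‖EE a b (j + 1)‖ : ℂ) * exp ((arg (EE a b (j + 1)) : ℂ) * I) *
      ((‖EE a b j‖ : ℂ) * exp ((arg (EE a b j) : ℂ) * -I)) =
      (‖EE a b (j + 1)‖ * ‖EE a b j‖ : ℂ) * (exp ((arg (EE a b (j + 1)) : ℂ) * I) *
        exp ((arg (EE a b j) : ℂ) * -I)) by ring, this, exp_mul_I]
    push_cast
    ring
  rw [e, im_mk] at h3
  have h4 : 0 < Real.sin (psi a b (j + 1) - psi a b j) := by
    by_contra hneg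
    push Not at hneg
    have : 0 ≤ ‖EE a b (j + 1)‖ * ‖EE a b j‖ := by positivity
    nlinarith [mul_nonpos_of_nonneg_of_nonpos this hneg]
  by_contra hneg
  push Not at hneg
  have : Real.sin (psi a b (j + 1) - psi a b j) ≤ 0 :=
    Real.sin_nonpos_of_nonpos_of_neg_pi_le (by linarith) (by linarith)
  linarith

lemma psi_mono (ha : 0 < a) (hb : 0 < b) (hrb : r * b < Real.pi) {i j : ℕ} (hi : 1 ≤ i)
    (hij : i ≤ j) (hjr : j ≤ r) : psi a b i ≤ psi a b j := by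
  induction j, hij using Nat.le_induction with
  | base => exact le_rfl
  | succ j hij ih =>
    exact (ih (by omega)).trans (psi_lt_succ ha hb hrb (by omega) hjr).le

end reg

namespace Crv

variable {r : ℕ} {a b : ℝ} (C : Crv r a b)

include C

lemma rpos : (0 : ℝ) < r := by
  have := C.hr
  have : 0 < r := by omega
  exact_mod_cast this

lemma bpos : 0 < b := by
  have h1 := C.blo
  have h2 := Real.pi_pos
  have h3 := C.rpos
  by_contra h
  push Not at h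
  nlinarith

lemma b_lt : b < Real.pi / 3 := by
  have h1 := C.bhi
  have h2 : (3 : ℝ) ≤ r := by exact_mod_cast C.hr
  have h3 := C.bpos
  nlinarith

lemma norm_eq : ‖EE a b (r + 1)‖ = ‖EE a b (r - 1)‖ := by
  have hr := C.hr
  have h1 := EE_normSq a b (r + 1)
  have h2 := EE_normSq a b (r - 1)
  have c1 : ((r + 1 : ℕ) : ℝ) = r + 1 := by push_cast; ring
  have c2 : ((r - 1 : ℕ) : ℝ) = r - 1 := by
    rw [Nat.cast_sub (by omega)]; push_cast; ring
  rw [c1] at h1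
  rw [c2] at h2
  have h3 : normSq (EE a b (r + 1)) = normSq (EE a b (r - 1)) := by
    rw [h1, h2]
    have e1 : 2 * (((r : ℝ) + 1) * a) = 2 * (r * a) + 2 * a := by ring
    have e2 : 2 * (((r : ℝ) - 1) * a) = 2 * (r * a) - 2 * a := by ring
    have e3 : 2 * (((r : ℝ) + 1) * b) = 2 * (r * b) + 2 * b := by ring
    have e4 : 2 * (((r : ℝ) - 1) * b) = 2 * (r * b) - 2 * b := by ring
    rw [e1, e2, e3, e4, Real.cosh_add, Real.cosh_sub, Real.cos_add, Real.cos_sub]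
    linear_combination C.eq
  rw [← Complex.sq_norm, ← Complex.sq_norm] at h3
  exact (pow_left_inj₀ (norm_nonneg _) (norm_nonneg _) two_ne_zero).1 h3

lemma EEne {j : ℕ} (hj : 1 ≤ j) (hjr : j ≤ r + 1) : EE a b j ≠ 0 := by
  rcases Nat.lt_or_ge j (r + 1) with h | h
  · exact EE_ne C.bpos C.bhi hj (by omega)
  · have hj' : j = r + 1 := by omega
    rw [hj']
    have h1 : ‖EE a b (r + 1)‖ ≠ 0 := by
      rw [C.norm_eq]
      have := EE_ne (a := a) C.bpos C.bhi (j := r - 1) (by have := C.hr; omega) (by omega)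
      exact norm_ne_zero_iff.2 this
    exact norm_ne_zero_iff.1 h1

lemma kp_mem : 0 < kp a b ∧ kp a b < Real.pi / 2 := by
  have hb := C.b_lt
  have hb0 := C.bpos
  have hpi := Real.pi_pos
  have him : 0 < (ch a b).im := by
    rw [ch_im]
    have h1 : 0 < Real.sinh a := Real.sinh_pos_iff.2 C.apos
    have h2 : 0 < Real.sin b := Real.sin_pos_of_pos_of_lt_pi hb0 (by linarith)
    positivity
  have hre : 0 < (ch a b).re := by
    rw [ch_re]
    have h1 := Real.cosh_pos a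
    have h2 : 0 < Real.cos b := Real.cos_pos_of_mem_Ioo ⟨by linarith, by linarith⟩
    positivity
  refine ⟨(arg_pos_of_im him).1, ?_⟩
  have := abs_arg_lt_pi_div_two_iff.2 (Or.inl hre)
  exact (abs_lt.1 this).2

lemma ch_ne : ch a b ≠ 0 := by
  intro h
  have h1 := C.kp_mem.1
  unfold kp at h1
  rw [h, arg_zero] at h1
  exact lt_irrefl _ h1

/-- the basic relation -/
lemma csq : ch a b ^ 2 * ((‖EE a b r‖ : ℂ) ^ 2 * (‖EE a b (r - 1)‖ : ℂ) ^ 2) =
    (‖ch a b‖ : ℂ) ^ 2 * ((starRingEnd ℂ) (EE a b r) ^ 2 *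
      (EE a b (r + 1) * EE a b (r - 1))) := by
  have hr := C.hr
  obtain ⟨n, rfl⟩ : ∃ n, r = n + 1 := ⟨r - 1, by omega⟩
  simp only [Nat.add_sub_cancel] at *
  have hadd := EE_add a b n
  have hnorm := C.norm_eq
  simp only [Nat.add_sub_cancel] at hnorm
  rw [show n + 1 + 1 = n + 2 by ring] at hnorm ⊢
  set P := EE a b (n + 2)
  set Q := EE a b n
  set R := EE a b (n + 1)
  set c := ch a b
  have nP : P * (starRingEnd ℂ) P = (‖Q‖ : ℂ) ^ 2 := by rw [mul_conj', hnorm]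
  have nQ : Q * (starRingEnd ℂ) Q = (‖Q‖ : ℂ) ^ 2 := by rw [mul_conj']
  have nR : R * (starRingEnd ℂ) R = (‖R‖ : ℂ) ^ 2 := by rw [mul_conj']
  have nc : c * (starRingEnd ℂ) c = (‖c‖ : ℂ) ^ 2 := by rw [mul_conj']
  have haddc : (starRingEnd ℂ) P + (starRingEnd ℂ) Q =
      2 * (starRingEnd ℂ) c * (starRingEnd ℂ) R := by
    have := congrArg (starRingEnd ℂ) hadd
    rw [map_add, map_mul, map_mul, map_ofNat] at this
    exact this
  have hQ : Q ≠ 0 := C.EEne (j := n) (by omega) (by omega)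
  have hP : P ≠ 0 := C.EEne (j := n + 2) (by omega) (by omega)
  have hR : R ≠ 0 := C.EEne (j := n + 1) (by omega) (by omega)
  have hc : c ≠ 0 := C.ch_ne
  -- (P+Q)^2 conj(PQ) = |Q|^2 |P+Q|^2
  have key : (P + Q) ^ 2 * ((starRingEnd ℂ) P * (starRingEnd ℂ) Q) =
      (‖Q‖ : ℂ) ^ 2 * ((P + Q) * ((starRingEnd ℂ) P + (starRingEnd ℂ) Q)) := by
    linear_combination ((P + Q) * (starRingEnd ℂ) Q) * nP + ((P + Q) * (starRingEnd ℂ) P) * nQ
  rw [hadd, haddc] at key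
  -- 4 c^2 R^2 conj(PQ) = |Q|^2 4 |c|^2 |R|^2
  have key2 : c ^ 2 * R ^ 2 * ((starRingEnd ℂ) P * (starRingEnd ℂ) Q) =
      (‖Q‖ : ℂ) ^ 2 * ((‖c‖ : ℂ) ^ 2 * (‖R‖ : ℂ) ^ 2) := by
    rw [← nc, ← nR]
    linear_combination key / 4
  have hQ' : (‖Q‖ : ℂ) ≠ 0 := by exact_mod_cast norm_ne_zero_iff.2 hQ
  have hR' : (‖R‖ : ℂ) ≠ 0 := by exact_mod_cast norm_ne_zero_iff.2 hR
  -- multiply by conj R^2 P Q
  have key3 : c ^ 2 * ((‖R‖ : ℂ) ^ 2) ^ 2 * (((‖Q‖ : ℂ) ^ 2) * ((‖Q‖ : ℂ) ^ 2)) =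
      (‖Q‖ : ℂ) ^ 2 * ((‖c‖ : ℂ) ^ 2 * (‖R‖ : ℂ) ^ 2) * ((starRingEnd ℂ) R ^ 2 * (P * Q)) := by
    rw [← key2]
    nth_rewrite 1 [← nP]
    rw [← nQ, ← nR]
    ring
  have hne : (‖R‖ : ℂ) ^ 2 * (‖Q‖ : ℂ) ^ 2 ≠ 0 := by positivity
  apply mul_left_cancel₀ hne
  linear_combination key3

end Crv

end Pool.Agent.Helper66.GF
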