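import Mathlib
import Pool.Agent.Helper66.GF.Angles
import Pool.Agent.Helper9.TB.RDefs
import Pool.Agent.Helper11.Kash.Loba

/-!
# The functions `ee`, `win`, `ll` through `log cosh` and its primitive
-/

namespace Pool.Agent.Helper66.GF

open Complex MeasureTheory
open Pool.Agent.Helper9.TB (ee ll win KK)

/-- `log (2 cosh (π z))` for `0 < Re z` -/
noncomputable def gg (z : ℂ) : ℂ := Real.pi * z + log (1 + exp (-2 * Real.pi * z))

lemma norm_q {z : ℂ} (hz : 0 < z.re) : ‖exp (-2 * Real.pi * z)‖ < 1 := by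
  rw [norm_exp, Real.exp_lt_one_iff]
  have h : (-2 * (Real.pi : ℂ) * z).re = -2 * Real.pi * z.re := by
    rw [show (-2 * (Real.pi : ℂ) * z) = ((-2 * Real.pi : ℝ) : ℂ) * z by push_cast; ring,
      re_ofReal_mul]
  rw [h]
  nlinarith [Real.pi_pos]

lemma one_add_q {z : ℂ} (hz : 0 < z.re) : 1 + exp (-2 * Real.pi * z) ∈ slitPlane := by
  left
  rw [add_re, one_re]
  have h1 := norm_q hz
  have h2 := abs_re_le_norm (exp (-2 * Real.pi * z))
  have h3 := (abs_le.1 h2).1
  linarith

lemma gg_deriv {z : ℂ} (hz : 0 < z.re) :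
    HasDerivAt gg (Real.pi * Complex.sinh (Real.pi * z) / Complex.cosh (Real.pi * z)) z := by
  have h1 : HasDerivAt (fun z : ℂ => 1 + exp (-2 * Real.pi * z))
      (exp (-2 * Real.pi * z) * (-2 * Real.pi)) z := by
    have := ((hasDerivAt_id z).const_mul (-2 * (Real.pi : ℂ))).cexp.const_add 1
    simpa using this
  have h2 := h1.clog (one_add_q hz)
  have h3 := ((hasDerivAt_id z).const_mul (Real.pi : ℂ)).add h2
  refine HasDerivAt.congr_deriv h3 ?_
  have hne : (1 + exp (-2 * Real.pi * z)) ≠ 0 := slitPlane_ne_zero (one_add_q hz)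
  have e1 : Complex.cosh (Real.pi * z) = exp (Real.pi * z) * (1 + exp (-2 * Real.pi * z)) / 2 := by
    rw [Complex.cosh, mul_add, ← exp_add]
    ring_nf
  have e2 : Complex.sinh (Real.pi * z) = exp (Real.pi * z) * (1 - exp (-2 * Real.pi * z)) / 2 := by
    rw [Complex.sinh, mul_sub, ← exp_add]
    ring_nf
  rw [e1, e2]
  have hE := exp_ne_zero (Real.pi * z)
  generalize exp (-2 * Real.pi * z) = q at *
  generalize exp (Real.pi * z) = E at *
  field_simp
  ring

lemma exp_gg {z : ℂ} (hz : 0 < z.re) : exp (gg z) = 2 * Complex.cosh (Real.pi * z) := by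
  unfold gg
  rw [exp_add, exp_log (slitPlane_ne_zero (one_add_q hz)), Complex.cosh, mul_add, ← exp_add]
  ring_nf

lemma exists_primitive : ∃ G : ℂ → ℂ, ∀ z : ℂ, 0 < z.re → HasDerivAt G (gg z) z := by
  have hd : DifferentiableOn ℂ (fun z : ℂ => log (1 + z)) (Metric.ball 0 1) := by
    intro z hz
    apply DifferentiableAt.differentiableWithinAt
    apply DifferentiableAt.clog (by fun_prop)
    left
    rw [add_re, one_re]
    rw [mem_ball_zero_iff] at hz
    have h3 := (abs_le.1 (abs_re_le_norm z)).1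
    linarith
  have hds : DifferentiableOn ℂ (dslope (fun z : ℂ => log (1 + z)) 0) (Metric.ball 0 1) :=
    (differentiableOn_dslope (Metric.ball_mem_nhds 0 one_pos)).2 hd
  obtain ⟨L, hL⟩ := hds.isExactOn_ball
  refine ⟨fun z => Real.pi * z ^ 2 / 2 - 1 / (2 * Real.pi) * L (exp (-2 * Real.pi * z)), ?_⟩
  intro z hz
  have hq := norm_q hz
  have h1 : HasDerivAt (fun z : ℂ => exp (-2 * Real.pi * z))
      (exp (-2 * Real.pi * z) * (-2 * Real.pi)) z := by
    have := ((hasDerivAt_id z).const_mul (-2 * (Real.pi : ℂ))).cexp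
    simpa using this
  have h2 := (hL (exp (-2 * Real.pi * z)) (by rwa [mem_ball_zero_iff])).comp z h1
  have h3 := (((hasDerivAt_id z).pow 2).const_mul (Real.pi : ℂ)).div_const 2
  have h4 := h3.sub (h2.const_mul (1 / (2 * (Real.pi : ℂ))))
  refine HasDerivAt.congr_deriv h4 ?_
  have hne := exp_ne_zero (-2 * Real.pi * z)
  rw [dslope_of_ne _ hne, slope_def_field]
  have hpi : (Real.pi : ℂ) ≠ 0 := by exact_mod_cast Real.pi_ne_zero
  unfold gg
  simp only [add_zero, log_one, sub_zero, id]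
  field_simp
  ring

/-- a primitive of `gg` -/
noncomputable def GG : ℂ → ℂ := Classical.choose exists_primitive

lemma GG_deriv {z : ℂ} (hz : 0 < z.re) : HasDerivAt GG (gg z) z :=
  Classical.choose_spec exists_primitive z hz

/-- the point `h + i u` -/
noncomputable def pt (h u : ℝ) : ℂ := (h : ℂ) + (u : ℂ) * I

lemma pt_re (h u : ℝ) : (pt h u).re = h := by simp [pt]

lemma pi_pt (h u : ℝ) : (Real.pi : ℂ) * pt h u =
    ((Real.pi * h : ℝ) : ℂ) + ((Real.pi * u : ℝ) : ℂ) * I := by
  unfold pt; push_cast; ring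

lemma ee_eq {h : ℝ} (hh : 0 < h) (u : ℝ) : ee h u = (gg (pt h u)).re := by
  have hz : 0 < (pt h u).re := by rw [pt_re]; exact hh
  have h1 : (gg (pt h u)).re = Real.log ‖exp (gg (pt h u))‖ := by
    rw [norm_exp, Real.log_exp]
  rw [h1, exp_gg hz, pi_pt, norm_mul, Complex.norm_ofNat]
  have h2 : normSq (Complex.cosh (((Real.pi * h : ℝ) : ℂ) + ((Real.pi * u : ℝ) : ℂ) * I)) =
      (Real.cosh (2 * (Real.pi * h)) + Real.cos (2 * (Real.pi * u))) / 2 :=
    ch_normSq (Real.pi * h) (Real.pi * u)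
  have h3 : (2 * ‖Complex.cosh (((Real.pi * h : ℝ) : ℂ) + ((Real.pi * u : ℝ) : ℂ) * I)‖) ^ 2 =
      2 * (Real.cosh (2 * Real.pi * h) + Real.cos (2 * Real.pi * u)) := by
    rw [mul_pow, Complex.sq_norm, h2, show 2 * (Real.pi * h) = 2 * Real.pi * h by ring,
      show 2 * (Real.pi * u) = 2 * Real.pi * u by ring]
    ring
  unfold ee
  rw [← h3, Real.log_pow]
  push_cast
  ring

lemma pt_path (h u : ℝ) : HasDerivAt (fun u : ℝ => pt h u) I u := by
  unfold pt
  have := ((hasDerivAt_id u).ofReal_comp.mul_const I).const_add (h : ℂ)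
  simpa using this

lemma hasDerivAt_im {f : ℝ → ℂ} {f' : ℂ} {x : ℝ} (hf : HasDerivAt f f' x) :
    HasDerivAt (fun t => (f t).im) f'.im x := by
  exact imCLM.hasFDerivAt.comp_hasDerivAt x hf

lemma ee_cont {h : ℝ} (hh : 0 < h) : Continuous (ee h) := by
  have e : ee h = fun u => (gg (pt h u)).re := funext (ee_eq hh)
  rw [e, continuous_iff_continuousAt]
  intro u
  have h1 : ContinuousAt gg (pt h u) := (gg_deriv (by rw [pt_re]; exact hh)).continuousAt
  have h2 : ContinuousAt (fun u => pt h u) u := (pt_path h u).continuousAt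
  exact continuous_re.continuousAt.comp (ContinuousAt.comp h1 h2)

lemma win_eq {h : ℝ} (hh : 0 < h) (x t : ℝ) :
    win h x t = (GG (pt h (x + t))).im - (GG (pt h (x - t))).im := by
  unfold win
  apply intervalIntegral.integral_eq_sub_of_hasDerivAt (f := fun u => (GG (pt h u)).im)
  · intro u _
    have hz : 0 < (pt h u).re := by rw [pt_re]; exact hh
    have h1 := (GG_deriv hz).comp_of_eq u (pt_path h u) rfl
    have h2 := hasDerivAt_im h1
    refine h2.congr_deriv ?_
    rw [ee_eq hh, mul_I_im]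
  · exact (ee_cont hh).intervalIntegrable _ _

lemma sinh_div_cosh_re (x y : ℝ) (hx : 0 < x) :
    (Complex.sinh (x + y * I) / Complex.cosh (x + y * I)).re =
      Real.sinh (2 * x) / (Real.cosh (2 * x) + Real.cos (2 * y)) := by
  have h2 : normSq (Complex.cosh ((x : ℂ) + (y : ℂ) * I)) =
      (Real.cosh (2 * x) + Real.cos (2 * y)) / 2 := ch_normSq x y
  have hpos : 0 < Real.cosh (2 * x) + Real.cos (2 * y) := by
    have h1 : 1 < Real.cosh (2 * x) := Real.one_lt_cosh.2 (by positivity)
    have h2 := Real.neg_one_le_cos (2 * y)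
    linarith
  rw [div_re, h2, sinh_mk, cosh_mk, re_mk, re_mk, im_mk, im_mk, ← add_div,
    div_eq_div_iff (by positivity) hpos.ne', Real.sinh_two_mul]
  have h3 := Real.sin_sq_add_cos_sq y
  linear_combination (Real.sinh x * Real.cosh x * (Real.cosh (2 * x) + Real.cos (2 * y))) * h3

lemma gg_im_deriv {h : ℝ} (hh : 0 < h) (u : ℝ) :
    HasDerivAt (fun u => (gg (pt h u)).im) (Real.pi * Real.sinh (2 * Real.pi * h) /
      (Real.cosh (2 * Real.pi * h) + Real.cos (2 * Real.pi * u))) u := by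
  have hz : 0 < (pt h u).re := by rw [pt_re]; exact hh
  have h1 := (gg_deriv hz).comp_of_eq u (pt_path h u) rfl
  have h2 := hasDerivAt_im h1
  refine h2.congr_deriv ?_
  rw [mul_I_im, pi_pt, mul_div_assoc, re_ofReal_mul, sinh_div_cosh_re _ _ (by positivity),
    mul_div_assoc]
  ring_nf

lemma den_pos {h : ℝ} (hh : 0 < h) (u : ℝ) :
    0 < Real.cosh (2 * Real.pi * h) + Real.cos (2 * Real.pi * u) := by
  have h1 : 1 < Real.cosh (2 * Real.pi * h) := Real.one_lt_cosh.2 (by positivity)
  have h2 := Real.neg_one_le_cos (2 * Real.pi * u)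
  linarith

lemma gg_im_integral {h : ℝ} (hh : 0 < h) (u v : ℝ) :
    ∫ x in u..v, Real.pi * Real.sinh (2 * Real.pi * h) /
      (Real.cosh (2 * Real.pi * h) + Real.cos (2 * Real.pi * x)) =
      (gg (pt h v)).im - (gg (pt h u)).im := by
  apply intervalIntegral.integral_eq_sub_of_hasDerivAt
  · intro x _
    exact gg_im_deriv hh x
  · apply Continuous.intervalIntegrable
    apply Continuous.div (by fun_prop) (by fun_prop)
    intro x
    exact (den_pos hh x).ne'

lemma gg_im_mono {h : ℝ} (hh : 0 < h) : StrictMono (fun u => (gg (pt h u)).im) := by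
  apply strictMono_of_hasDerivAt_pos (fun u => gg_im_deriv hh u)
  intro u
  have h1 := den_pos hh u
  have h2 : 0 < Real.sinh (2 * Real.pi * h) := Real.sinh_pos_iff.2 (by positivity)
  positivity

lemma gg_im_period (h u : ℝ) : (gg (pt h (u + 1))).im = (gg (pt h u)).im + Real.pi := by
  unfold gg
  have e1 : -2 * (Real.pi : ℂ) * pt h (u + 1) = -2 * Real.pi * pt h u - 2 * Real.pi * I := by
    unfold pt; push_cast; ring
  have e2 : exp (-2 * (Real.pi : ℂ) * pt h (u + 1)) = exp (-2 * Real.pi * pt h u) := by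
    rw [e1, exp_sub, exp_two_pi_mul_I, div_one]
  rw [e2, add_im, add_im, pi_pt, pi_pt, im_mk, im_mk]
  ring

lemma gg_im_window {h : ℝ} (hh : 0 < h) {x t : ℝ} (h0 : 0 < t) (h1 : t < 1 / 2) :
    0 < (gg (pt h (x + t))).im - (gg (pt h (x - t))).im ∧
      (gg (pt h (x + t))).im - (gg (pt h (x - t))).im < Real.pi := by
  have m1 := gg_im_mono hh (by linarith : x - t < x + t)
  have m2 := gg_im_mono hh (by linarith : x + t < x - t + 1)
  simp only at m1 m2
  rw [gg_im_period] at m2
  constructor <;> linarith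

lemma ll_eq (t : ℝ) : ll t = Pool.Agent.Helper9.Kashaev.HH (Real.pi * t) / Real.pi := by
  unfold ll Pool.Agent.Helper9.Kashaev.HH
  have h := intervalIntegral.integral_comp_mul_left (a := 0) (b := t)
    (fun x => Real.log |2 * Real.sin x|) Real.pi_ne_zero
  rw [mul_zero, smul_eq_mul] at h
  rw [div_eq_inv_mul, ← h]
  simp only [Real.log_abs]

lemma ll_deriv {t : ℝ} (h0 : 0 < t) (h1 : t < 1) :
    HasDerivAt ll (Real.log (2 * Real.sin (Real.pi * t))) t := by
  have hpi := Real.pi_pos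
  have e : ll = fun t => Pool.Agent.Helper9.Kashaev.HH (Real.pi * t) / Real.pi := funext ll_eq
  rw [e]
  have h2 := Pool.Agent.Helper11.Kash.HH_deriv (x := Real.pi * t) (by positivity) (by nlinarith)
  have h3 := (h2.comp t ((hasDerivAt_id t).const_mul Real.pi)).div_const Real.pi
  refine h3.congr_deriv ?_
  field_simp

lemma ll_cont : Continuous ll := by
  have e : ll = fun t => Pool.Agent.Helper9.Kashaev.HH (Real.pi * t) / Real.pi := funext ll_eq
  rw [e]
  have := Pool.Agent.Helper9.Kashaev.HH_cont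
  fun_prop

lemma ll_zero : ll 0 = 0 := by simp [ll]

end Pool.Agent.Helper66.GF
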