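import Pool.Agent.Helper66.GF.Curve

/-!
# Parametrisation of the curve
-/

namespace Pool.Agent.Helper66.GF

open Filter Topology

/-- logarithm of `sinh (2 r e^x) sinh (2 e^x)` -/
noncomputable def qf (r : ℕ) (x : ℝ) : ℝ :=
  Real.log (Real.sinh (2 * (r * Real.exp x))) + Real.log (Real.sinh (2 * Real.exp x))

lemma sinh_pos' {r : ℕ} (hr : 1 ≤ r) (x : ℝ) : 0 < Real.sinh (2 * (r * Real.exp x)) := by
  apply Real.sinh_pos_iff.2
  have : (0 : ℝ) < r := by exact_mod_cast hr
  positivity

lemma sinh_pos'' (x : ℝ) : 0 < Real.sinh (2 * Real.exp x) := by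
  apply Real.sinh_pos_iff.2
  positivity

lemma qf_deriv {r : ℕ} (hr : 1 ≤ r) (x : ℝ) : ∃ d : ℝ, d ≠ 0 ∧ HasDerivAt (qf r) d x := by
  have h1 : HasDerivAt (fun x => Real.sinh (2 * (r * Real.exp x)))
      (Real.cosh (2 * (r * Real.exp x)) * (2 * (r * Real.exp x))) x :=
    (((Real.hasDerivAt_exp x).const_mul (r : ℝ)).const_mul 2).sinh
  have h2 : HasDerivAt (fun x => Real.sinh (2 * Real.exp x))
      (Real.cosh (2 * Real.exp x) * (2 * Real.exp x)) x :=
    ((Real.hasDerivAt_exp x).const_mul 2).sinh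
  refine ⟨_, ?_, (h1.log (sinh_pos' hr x).ne').add (h2.log (sinh_pos'' x).ne')⟩
  have p1 := sinh_pos' hr x
  have p2 := sinh_pos'' x
  have p3 := Real.cosh_pos (2 * (r * Real.exp x))
  have p4 := Real.cosh_pos (2 * Real.exp x)
  have : (0 : ℝ) < r := by exact_mod_cast hr
  positivity

lemma qf_mono {r : ℕ} (hr : 1 ≤ r) : StrictMono (qf r) := by
  intro x y hxy
  unfold qf
  have h0 : (0 : ℝ) < r := by exact_mod_cast hr
  have h1 := Real.exp_lt_exp.2 hxy
  apply add_lt_add
  · apply Real.log_lt_log (sinh_pos' hr x)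
    apply Real.sinh_lt_sinh.2
    nlinarith
  · apply Real.log_lt_log (sinh_pos'' x)
    apply Real.sinh_lt_sinh.2
    linarith

lemma qf_cont {r : ℕ} (hr : 1 ≤ r) : Continuous (qf r) := by
  rw [continuous_iff_continuousAt]
  intro x
  obtain ⟨d, _, hd⟩ := qf_deriv hr x
  exact hd.continuousAt

lemma qf_surj {r : ℕ} (hr : 1 ≤ r) : Function.Surjective (qf r) := by
  have h0 : (1 : ℝ) ≤ r := by exact_mod_cast hr
  apply (qf_cont hr).surjective
  · -- at top
    have h1 : Tendsto (fun x : ℝ => x + x) atTop atTop :=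
      tendsto_id.atTop_add_atTop tendsto_id
    apply tendsto_atTop_mono _ h1
    intro x
    unfold qf
    have e := Real.exp_pos x
    apply add_le_add
    · rw [Real.le_log_iff_exp_le (sinh_pos' hr x)]
      have := Real.self_le_sinh_iff.2 (by positivity : 0 ≤ 2 * (r * Real.exp x))
      nlinarith
    · rw [Real.le_log_iff_exp_le (sinh_pos'' x)]
      have := Real.self_le_sinh_iff.2 (by positivity : 0 ≤ 2 * Real.exp x)
      linarith
  · -- at bot
    have h1 : Tendsto (fun x : ℝ => Real.sinh (2 * (r * Real.exp x))) atBot (𝓝[>] 0) := by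
      rw [tendsto_nhdsWithin_iff]
      constructor
      · have h2 : Tendsto (fun x : ℝ => 2 * (r * Real.exp x)) atBot (𝓝 (2 * (r * 0))) :=
          (Real.tendsto_exp_atBot.const_mul _).const_mul _
        have h3 := (Real.continuous_sinh.tendsto (2 * ((r : ℝ) * 0))).comp h2
        rw [mul_zero, mul_zero, Real.sinh_zero] at h3
        exact h3
      · exact Eventually.of_forall fun x => sinh_pos' hr x
    have h2 : Tendsto (fun x : ℝ => Real.sinh (2 * Real.exp x)) atBot (𝓝[>] 0) := by
      rw [tendsto_nhdsWithin_iff]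
      constructor
      · have h2 : Tendsto (fun x : ℝ => 2 * Real.exp x) atBot (𝓝 (2 * 0)) :=
          Real.tendsto_exp_atBot.const_mul _
        have h3 := (Real.continuous_sinh.tendsto (2 * (0 : ℝ))).comp h2
        rw [mul_zero, Real.sinh_zero] at h3
        exact h3
      · exact Eventually.of_forall fun x => sinh_pos'' x
    exact (Real.tendsto_log_nhdsGT_zero.comp h1).atBot_add_atBot
      (Real.tendsto_log_nhdsGT_zero.comp h2)

/-- the curve as a graph -/
theorem exists_graph {r : ℕ} (hr : 3 ≤ r) : ∃ al : ℝ → ℝ,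
    ∀ b : ℝ, Real.pi < 2 * (r * b) → r * b < Real.pi →
      Crv r (al b) b ∧ ∃ d, HasDerivAt al d b := by
  have hr1 : 1 ≤ r := by omega
  set e := StrictMono.orderIsoOfSurjective (qf r) (qf_mono hr1) (qf_surj hr1) with he
  have hcont : Continuous e.symm := e.symm.continuous
  have hinv : ∀ y, qf r (e.symm y) = y := fun y => e.apply_symm_apply y
  refine ⟨fun b => Real.exp (e.symm (Real.log (-(Real.sin (2 * (r * b)) * Real.sin (2 * b))))), ?_⟩
  intro b hb1 hb2
  have hpi := Real.pi_pos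
  have hr3 : (3 : ℝ) ≤ r := by exact_mod_cast hr
  have hb0 : 0 < b := by
    by_contra h
    push Not at h
    nlinarith
  have hs1 : Real.sin (2 * (r * b)) < 0 := by
    have : Real.sin (2 * (r * b)) = - Real.sin (2 * (r * b) - Real.pi) := by
      rw [Real.sin_sub_pi]; ring
    rw [this]
    have := Real.sin_pos_of_pos_of_lt_pi (by linarith : 0 < 2 * (r * b) - Real.pi) (by linarith)
    linarith
  have hs2 : 0 < Real.sin (2 * b) := by
    apply Real.sin_pos_of_pos_of_lt_pi (by linarith)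
    nlinarith
  have hy : 0 < -(Real.sin (2 * (r * b)) * Real.sin (2 * b)) := by nlinarith
  constructor
  · refine ⟨hr, Real.exp_pos _, hb1, hb2, ?_⟩
    have h1 := hinv (Real.log (-(Real.sin (2 * (r * b)) * Real.sin (2 * b))))
    unfold qf at h1
    rw [← Real.log_mul (sinh_pos' hr1 _).ne' (sinh_pos'' _).ne'] at h1
    exact Real.log_injOn_pos (Set.mem_Ioi.2 (mul_pos (sinh_pos' hr1 _) (sinh_pos'' _)))
      (Set.mem_Ioi.2 hy) h1
  · obtain ⟨d, hd0, hd⟩ := qf_deriv hr1
      (e.symm (Real.log (-(Real.sin (2 * (r * b)) * Real.sin (2 * b)))))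
    have h1 : HasDerivAt e.symm d⁻¹ (Real.log (-(Real.sin (2 * (r * b)) * Real.sin (2 * b)))) :=
      HasDerivAt.of_local_left_inverse hcont.continuousAt hd hd0 (Eventually.of_forall hinv)
    have h2 : HasDerivAt (fun b : ℝ => -(Real.sin (2 * (r * b)) * Real.sin (2 * b))) _ b :=
      ((((hasDerivAt_id b).const_mul (r : ℝ)).const_mul 2).sin.mul
        ((hasDerivAt_id b).const_mul 2).sin).neg
    have h3 := h2.log hy.ne'
    have h4 := (h1.comp b h3).exp
    exact ⟨_, h4⟩

/-- uniqueness -/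
lemma Crv.unique {r : ℕ} {a a' b : ℝ} (C : Crv r a b) (C' : Crv r a' b) : a = a' := by
  have h0 := C.rpos
  have h1 := C.apos
  have h2 := C'.apos
  have h3 := C.eq.trans C'.eq.symm
  by_contra hne
  rcases lt_or_gt_of_ne hne with h | h
  · have e1 : Real.sinh (2 * (r * a)) < Real.sinh (2 * (r * a')) :=
      Real.sinh_lt_sinh.2 (by nlinarith)
    have e2 : Real.sinh (2 * a) < Real.sinh (2 * a') := Real.sinh_lt_sinh.2 (by linarith)
    have e3 : 0 < Real.sinh (2 * (r * a)) := Real.sinh_pos_iff.2 (by positivity)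
    have e4 : 0 < Real.sinh (2 * a) := Real.sinh_pos_iff.2 (by positivity)
    have := mul_lt_mul'' e1 e2 e3.le e4.le
    linarith
  · have e1 : Real.sinh (2 * (r * a')) < Real.sinh (2 * (r * a)) :=
      Real.sinh_lt_sinh.2 (by nlinarith)
    have e2 : Real.sinh (2 * a') < Real.sinh (2 * a) := Real.sinh_lt_sinh.2 (by linarith)
    have e3 : 0 < Real.sinh (2 * (r * a')) := Real.sinh_pos_iff.2 (by positivity)
    have e4 : 0 < Real.sinh (2 * a') := Real.sinh_pos_iff.2 (by positivity)
    have := mul_lt_mul'' e1 e2 e3.le e4.le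
    linarith

end Pool.Agent.Helper66.GF
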