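import Pool.Agent.Helper66.GF.Path
import Pool.Agent.Helper66.GF.Impl

/-!
# The degenerate end of the curve, and the value of the volume on the curve
-/

namespace Pool.Agent.Helper66.GF

open Complex MeasureTheory Filter Topology
open Pool.Agent.Helper9.TB (ee ll win KK)
open Pool.Agent.Helper9.Kashaev (HH HH_cont HH_zero)
open Pool.Agent.Helper11.Kash (HH_deriv HH_pi HH_pi_half)

section lim

variable {r : ℕ} (hr : 3 ≤ r) {al : ℝ → ℝ}
  (hal : ∀ b : ℝ, Real.pi < 2 * (r * b) → r * b < Real.pi → Crv r (al b) b)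

include hr in
lemma ev_range : ∀ᶠ b : ℝ in 𝓝[<] (Real.pi / r), Real.pi < 2 * (r * b) ∧ r * b < Real.pi := by
  have hpi := Real.pi_pos
  have hr0 : (0 : ℝ) < r := by
    have : 0 < r := by omega
    exact_mod_cast this
  have h1 : ∀ᶠ b : ℝ in 𝓝[<] (Real.pi / r), Real.pi / (2 * r) < b := by
    apply eventually_nhdsWithin_of_eventually_nhds
    apply lt_mem_nhds
    apply div_lt_div_of_pos_left hpi hr0
    linarith
  filter_upwards [h1, self_mem_nhdsWithin] with b hb1 hb2
  constructor
  · rw [div_lt_iff₀ (by positivity)] at hb1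
    linarith
  · rw [Set.mem_Iio, lt_div_iff₀ hr0] at hb2
    linarith

include hr hal in
lemma ev_crv : ∀ᶠ b : ℝ in 𝓝[<] (Real.pi / r), Crv r (al b) b := by
  filter_upwards [ev_range hr] with b hb
  exact hal b hb.1 hb.2

lemma tendsto_b : Tendsto (fun b : ℝ => b) (𝓝[<] (Real.pi / r)) (𝓝 (Real.pi / r)) :=
  tendsto_id.mono_left nhdsWithin_le_nhds

include hr hal in
lemma tendsto_al : Tendsto al (𝓝[<] (Real.pi / r)) (𝓝 0) := by
  have hr0 : (0 : ℝ) < r := by
    have : 0 < r := by omega
    exact_mod_cast this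
  have h1 : Tendsto (fun b : ℝ => -(Real.sin (2 * (r * b)) * Real.sin (2 * b)))
      (𝓝[<] (Real.pi / r)) (𝓝 0) := by
    have hc : Continuous (fun b : ℝ => -(Real.sin (2 * (r * b)) * Real.sin (2 * b))) := by
      fun_prop
    have h2 := (hc.tendsto (Real.pi / r)).mono_left (nhdsWithin_le_nhds (s := Set.Iio (Real.pi / r)))
    have h3 : 2 * ((r : ℝ) * (Real.pi / r)) = 2 * Real.pi := by field_simp
    simp only [h3, Real.sin_two_pi, zero_mul, neg_zero] at h2
    exact h2
  have h2 : Tendsto (fun b => al b ^ 2) (𝓝[<] (Real.pi / r)) (𝓝 0) := by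
    apply squeeze_zero' (g := fun b : ℝ => -(Real.sin (2 * (r * b)) * Real.sin (2 * b))) _ _ h1
    · exact Eventually.of_forall fun b => sq_nonneg _
    · filter_upwards [ev_crv hr hal] with b C
      rw [← C.eq]
      have ha := C.apos
      have h1r : (1 : ℝ) ≤ r := by exact_mod_cast (by omega : 1 ≤ r)
      have e1 := Real.self_le_sinh_iff.2 (by positivity : 0 ≤ 2 * (r * al b))
      have e2 := Real.self_le_sinh_iff.2 (by positivity : 0 ≤ 2 * al b)
      have e3 : al b ≤ Real.sinh (2 * (r * al b)) := by nlinarith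
      have e4 : al b ≤ Real.sinh (2 * al b) := by linarith
      rw [sq]
      exact mul_le_mul e3 e4 ha.le (ha.le.trans e3)
  have h3 := h2.sqrt
  rw [Real.sqrt_zero] at h3
  apply h3.congr'
  filter_upwards [ev_crv hr hal] with b C
  exact Real.sqrt_sq C.apos.le

lemma EE_continuous (j : ℕ) : Continuous (fun p : ℝ × ℝ => EE p.1 p.2 j) := by
  unfold EE bt
  fun_prop

lemma EE_tend0 (x y : ℝ) (j : ℕ) : Tendsto (fun p : ℝ × ℝ => EE p.1 p.2 j) (𝓝 (x, y))
      (𝓝 (EE x y j)) := (EE_continuous j).tendsto (x, y)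

lemma EE_tend {l : Filter ℝ} {x y : ℝ} (j : ℕ) {al : ℝ → ℝ} (h0 : Tendsto (fun b => (al b, b)) l
    (𝓝 (x, y))) : Tendsto (fun b => EE (al b) b j) l (𝓝 (EE x y j)) := by
  have h1 := EE_tend0 x y j
  have h2 := h1.comp h0
  exact h2

lemma ch_continuous : Continuous (fun p : ℝ × ℝ => ch p.1 p.2) := by
  unfold ch bt
  fun_prop

include hr hal in
lemma tendsto_pair : Tendsto (fun b => (al b, b)) (𝓝[<] (Real.pi / r))
    (𝓝 ((0 : ℝ), Real.pi / r)) :=
  (tendsto_al hr hal).prodMk_nhds tendsto_b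

include hr hal in
lemma tendsto_EE (j : ℕ) : Tendsto (fun b => EE (al b) b j) (𝓝[<] (Real.pi / r))
    (𝓝 (EE 0 (Real.pi / r) j)) := EE_tend j (tendsto_pair hr hal)

lemma EE_end (b : ℝ) (j : ℕ) : EE 0 b j = (Real.sin (j * b) : ℂ) * I := by
  rw [EE_mk]; simp

include hr hal in
lemma tendsto_psi {j : ℕ} (hj : 1 ≤ j) (hjr : j < r) :
    Tendsto (fun b => psi (al b) b j) (𝓝[<] (Real.pi / r)) (𝓝 (Real.pi / 2)) := by
  have hpi := Real.pi_pos
  have hr0 : (0 : ℝ) < r := by
    have : 0 < r := by omega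
    exact_mod_cast this
  have hs : 0 < Real.sin (j * (Real.pi / r)) := by
    apply Real.sin_pos_of_pos_of_lt_pi
    · have : (0 : ℝ) < j := by exact_mod_cast hj
      positivity
    · have : (j : ℝ) < r := by exact_mod_cast hjr
      rw [← mul_div_assoc, div_lt_iff₀ hr0]
      nlinarith
  have h1 := tendsto_EE hr hal j
  rw [EE_end] at h1
  have h2 : ContinuousAt arg ((Real.sin (j * (Real.pi / r)) : ℂ) * I) := by
    apply continuousAt_arg
    right
    rw [mul_I_im, ofReal_re]
    exact hs.ne'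
  have h3 := h2.tendsto.comp h1
  rw [arg_real_mul I hs, arg_I] at h3
  exact h3

include hr hal in
lemma tendsto_kp : Tendsto (fun b => kp (al b) b) (𝓝[<] (Real.pi / r)) (𝓝 0) := by
  have hpi := Real.pi_pos
  have hr0 : (3 : ℝ) ≤ r := by exact_mod_cast hr
  have hs : 0 < Real.cos (Real.pi / r) := by
    apply Real.cos_pos_of_mem_Ioo
    constructor
    · have : 0 < Real.pi / r := by positivity
      linarith
    · apply div_lt_div_of_pos_left hpi (by norm_num) (by linarith)
  have h1 : Tendsto (fun b => ch (al b) b) (𝓝[<] (Real.pi / r)) (𝓝 (ch 0 (Real.pi / r))) := by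
    have h : Tendsto (fun p : ℝ × ℝ => ch p.1 p.2) (𝓝 ((0 : ℝ), Real.pi / r))
      (𝓝 (ch 0 (Real.pi / r))) := ch_continuous.tendsto _
    exact h.comp (tendsto_pair hr hal)
  have e : ch 0 (Real.pi / r) = (Real.cos (Real.pi / r) : ℂ) := by
    rw [ch_mk]; simp
  rw [e] at h1
  have h2 : ContinuousAt arg (Real.cos (Real.pi / r) : ℂ) := by
    apply continuousAt_arg
    left
    rw [ofReal_re]
    exact hs
  have h3 := h2.tendsto.comp h1
  rw [arg_ofReal_of_nonneg hs.le] at h3
  exact h3

include hr hal in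
lemma tendsto_tau : Tendsto (fun b => tau r (al b) b) (𝓝[<] (Real.pi / r)) (𝓝 0) := by
  have hpi := Real.pi_pos
  have hr0 : (0 : ℝ) < r := by
    have : 0 < r := by omega
    exact_mod_cast this
  have hF := (tendsto_EE hr hal 1).norm
  have hR := (tendsto_EE hr hal r).norm
  have hs1 : 0 < Real.sin ((1 : ℕ) * (Real.pi / r)) := by
    apply Real.sin_pos_of_pos_of_lt_pi
    · positivity
    · have : (1 : ℝ) < r := by exact_mod_cast (by omega : 1 < r)
      rw [← mul_div_assoc, div_lt_iff₀ hr0]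
      push_cast
      nlinarith
  have eF : ‖EE 0 (Real.pi / r) 1‖ = Real.sin ((1 : ℕ) * (Real.pi / r)) := by
    rw [EE_end, norm_mul, norm_I, mul_one, norm_real, Real.norm_of_nonneg hs1.le]
  have eR : ‖EE 0 (Real.pi / r) r‖ = 0 := by
    rw [EE_end, show (r : ℝ) * (Real.pi / r) = Real.pi by field_simp, Real.sin_pi]
    simp
  rw [eF] at hF
  rw [eR] at hR
  -- bound for tau ^ 2
  have hch : Tendsto (fun b : ℝ => (2 * Real.cosh (2 * al b) + 2) * ‖EE (al b) b r‖ ^ 2 /
      ‖EE (al b) b 1‖ ^ 2) (𝓝[<] (Real.pi / r)) (𝓝 0) := by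
    have h1 : Tendsto (fun b : ℝ => 2 * Real.cosh (2 * al b) + 2) (𝓝[<] (Real.pi / r))
        (𝓝 (2 * Real.cosh (2 * 0) + 2)) := by
      have hc : Continuous (fun a : ℝ => 2 * Real.cosh (2 * a) + 2) := by fun_prop
      exact (hc.tendsto 0).comp (tendsto_al hr hal)
    have h2 := (h1.mul (hR.pow 2)).div (hF.pow 2) (by positivity)
    rw [zero_pow two_ne_zero, mul_zero, zero_div] at h2
    exact h2
  have h2 : Tendsto (fun b => (4 * tau r (al b) b) ^ 2) (𝓝[<] (Real.pi / r)) (𝓝 0) := by
    apply squeeze_zero' _ _ hch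
    · exact Eventually.of_forall fun b => sq_nonneg _
    · filter_upwards [ev_crv hr hal] with b C
      have hm := C.tau_mem
      have h3 := congrArg (fun z : ℂ => ‖z‖) C.rel_tau
      set τ := tau r (al b) b
      have hF1 := C.norm_pos (j := 1) (by omega) (by omega)
      have hj : 2 * τ ≤ Real.sin (Real.pi * τ) := by
        have := Real.mul_le_sin (x := Real.pi * τ) (by nlinarith) (by nlinarith)
        have e : 2 / Real.pi * (Real.pi * τ) = 2 * τ := by field_simp
        rwa [e] at this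
      have h4 : 2 - 2 * Real.cos (2 * Real.pi * τ) = (2 * Real.sin (Real.pi * τ)) ^ 2 := by
        rw [show 2 * Real.pi * τ = 2 * (Real.pi * τ) by ring, Real.cos_two_mul]
        have := Real.sin_sq_add_cos_sq (Real.pi * τ)
        linear_combination -4 * this
      rw [h4] at h3
      simp only [norm_mul, norm_neg, norm_pow, norm_real] at h3
      have h5 : ‖2 * Complex.cosh (2 * bt (al b) b) +
          ((2 * Real.cos (2 * Real.pi * τ) : ℝ) : ℂ)‖ ≤ 2 * Real.cosh (2 * al b) + 2 := by
        refine (norm_add_le _ _).trans ?_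
        apply add_le_add
        · rw [norm_mul, Complex.norm_ofNat]
          have : ‖Complex.cosh (2 * bt (al b) b)‖ ≤ Real.cosh (2 * al b) := by
            have e : 2 * bt (al b) b = ((2 * al b : ℝ) : ℂ) + ((2 * b : ℝ) : ℂ) * I := by
              unfold bt; push_cast; ring
            have h6 := ch_normSq (2 * al b) (2 * b)
            unfold ch bt at h6
            rw [← e, ← Complex.sq_norm] at h6
            have h7 := Real.cos_le_one (2 * (2 * b))
            have h8 := Real.cosh_two_mul (2 * al b)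
            have h9 := Real.cosh_sq (2 * al b)
            have h10 := Real.cosh_pos (2 * al b)
            apply le_of_sq_le_sq _ h10.le
            nlinarith
          linarith
        · rw [norm_real, Real.norm_eq_abs, abs_mul, abs_two]
          have := Real.abs_cos_le_one (2 * Real.pi * τ)
          linarith
      rw [le_div_iff₀ (by positivity)]
      have hs0 : 0 ≤ Real.sin (Real.pi * τ) := by linarith
      have h6 : (4 * τ) ^ 2 ≤ (2 * Real.sin (Real.pi * τ)) ^ 2 := by
        apply pow_le_pow_left₀ (by linarith)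
        linarith
      have h7 : (‖(2:ℝ)‖ * ‖Real.sin (Real.pi * τ)‖) ^ 2 = (2 * Real.sin (Real.pi * τ)) ^ 2 := by
        rw [Real.norm_of_nonneg hs0, Real.norm_of_nonneg (zero_le_two : (0 : ℝ) ≤ 2)]
      rw [h7] at h3
      calc (4 * τ) ^ 2 * ‖EE (al b) b 1‖ ^ 2 ≤
          (2 * Real.sin (Real.pi * τ)) ^ 2 * ‖EE (al b) b 1‖ ^ 2 := by gcongr
        _ = _ := h3.symm
        _ ≤ _ := by gcongr
  have h3 := h2.sqrt
  rw [Real.sqrt_zero] at h3
  have h4 : Tendsto (fun b => 4 * tau r (al b) b) (𝓝[<] (Real.pi / r)) (𝓝 0) := by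
    apply h3.congr'
    filter_upwards [ev_crv hr hal] with b C
    exact Real.sqrt_sq (by linarith [C.tau_mem.1])
  have h5 := h4.const_mul (1 / 4)
  rw [mul_zero] at h5
  refine h5.congr fun b => by ring

/-- the limiting angles -/
noncomputable def Ae (r j : ℕ) : ℝ :=
  if j < r then 0 else if j = r then Real.pi / 2 else Real.pi

include hr hal in
lemma tendsto_ang {j : ℕ} (hj : 1 ≤ j) (hjr : j ≤ r + 1) :
    Tendsto (fun b => ang r (al b) b j) (𝓝[<] (Real.pi / r)) (𝓝 (Ae r j)) := by
  have hpi := Real.pi_pos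
  have h1 := tendsto_psi hr hal (j := 1) le_rfl (by omega)
  have h2 := tendsto_psi hr hal (j := r - 1) (by omega) (by omega)
  have h3 := tendsto_kp hr hal
  have h4 := tendsto_tau hr hal
  have h5 : Tendsto (fun b => psi (al b) b r) (𝓝[<] (Real.pi / r)) (𝓝 Real.pi) := by
    have h6 := ((h2.sub h3).add_const (Real.pi / 2)).sub (h4.const_mul Real.pi)
    have e : Real.pi / 2 - 0 + Real.pi / 2 - Real.pi * 0 = Real.pi := by ring
    rw [e] at h6
    refine h6.congr fun b => ?_
    unfold tau
    field_simp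
    ring
  unfold Ae
  rcases lt_trichotomy j r with h | h | h
  · rw [if_pos h]
    have h6 := (tendsto_psi hr hal hj h).sub h1
    rw [sub_self] at h6
    refine h6.congr fun b => ?_
    rw [ang_of_le h.le]
  · rw [if_neg (by omega), if_pos h]
    have h6 := h5.sub h1
    rw [show Real.pi - Real.pi / 2 = Real.pi / 2 by ring] at h6
    refine h6.congr fun b => ?_
    rw [ang_of_le h.le, h]
  · rw [if_neg (by omega), if_neg (by omega)]
    have hj' : j = r + 1 := by omega
    have h6 := ((h3.const_mul 2).add ((h5.sub h1).const_mul 2)).sub (h2.sub h1)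
    rw [show 2 * 0 + 2 * (Real.pi - Real.pi / 2) - (Real.pi / 2 - Real.pi / 2) = Real.pi by
      ring] at h6
    refine h6.congr fun b => ?_
    rw [hj', ang_succ]

lemma vv_tendsto {l : Filter ℝ} {f g h : ℝ → ℝ} {x y z : ℝ} (hf : Tendsto f l (𝓝 x))
    (hg : Tendsto g l (𝓝 y)) (hh : Tendsto h l (𝓝 z)) :
    Tendsto (fun b => vv (f b) (g b) (h b)) l (𝓝 (vv x y z)) := by
  unfold vv
  exact ((((HH_cont.tendsto _).comp hf).add ((HH_cont.tendsto _).comp hg)).add
    ((HH_cont.tendsto _).comp hh)).neg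

lemma vj_Ae {r : ℕ} {j : ℕ} (hjr : j + 1 ≤ r) : vj (Ae r) j = 0 := by
  unfold vj vv
  rcases lt_trichotomy (j + 2) r with h | h | h
  · have e1 : Ae r j = 0 := by unfold Ae; rw [if_pos (by omega)]
    have e2 : Ae r (j + 1) = 0 := by unfold Ae; rw [if_pos (by omega)]
    have e3 : Ae r (j + 2) = 0 := by unfold Ae; rw [if_pos (by omega)]
    rw [e1, e2, e3]
    simp [HH_zero, HH_pi]
  · have e1 : Ae r j = 0 := by unfold Ae; rw [if_pos (by omega)]
    have e2 : Ae r (j + 1) = 0 := by unfold Ae; rw [if_pos (by omega)]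
    have e3 : Ae r (j + 2) = Real.pi / 2 := by unfold Ae; rw [if_neg (by omega), if_pos h]
    rw [e1, e2, e3, zero_add, mul_zero, sub_zero, show Real.pi - Real.pi / 2 = Real.pi / 2 by ring,
      HH_pi_half, HH_zero]
    ring
  · have hj' : j + 1 = r := by omega
    have e1 : Ae r j = 0 := by unfold Ae; rw [if_pos (by omega)]
    have e2 : Ae r (j + 1) = Real.pi / 2 := by unfold Ae; rw [if_neg (by omega), if_pos hj']
    have e3 : Ae r (j + 2) = Real.pi := by
      unfold Ae; rw [if_neg (by omega), if_neg (by omega)]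
    rw [e1, e2, e3, zero_add, sub_self, show Real.pi - 2 * (Real.pi / 2) = 0 by ring,
      show 2 * (Real.pi / 2) = Real.pi by ring, HH_pi, HH_zero]
    ring

include hr hal in
lemma tendsto_Lf : Tendsto (fun b => Lf r (ang r (al b) b)) (𝓝[<] (Real.pi / r)) (𝓝 0) := by
  have key : ∀ j, 1 ≤ j → j + 1 ≤ r → Tendsto (fun b => vj (ang r (al b) b) j)
      (𝓝[<] (Real.pi / r)) (𝓝 0) := by
    intro j hj hjr
    rw [← vj_Ae hjr]
    have h0 := tendsto_ang hr hal (j := j) (by omega) (by omega)
    have h1 := tendsto_ang hr hal (j := j + 1) (by omega) (by omega)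
    have h2 := tendsto_ang hr hal (j := j + 2) (by omega) (by omega)
    exact vv_tendsto ((h0.add h2).const_sub _) ((h0.add h2).sub (h1.const_mul 2)) (h1.const_mul 2)
  unfold Lf
  have h1 : Tendsto (fun b => ∑ j ∈ Finset.range (r - 2), vj (ang r (al b) b) (j + 1))
      (𝓝[<] (Real.pi / r)) (𝓝 (∑ j ∈ Finset.range (r - 2), (0 : ℝ))) := by
    apply tendsto_finsetSum
    intro j hj
    rw [Finset.mem_range] at hj
    exact key (j + 1) (by omega) (by omega)
  have h2 := (h1.const_mul 4).add ((key (r - 1) (by omega) (by omega)).const_mul 2)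
  simpa using h2

lemma ee_bound {h u : ℝ} (hh : Real.cosh (2 * Real.pi * h) ≤ 2) (hu : |u| ≤ 5 / 12) :
    |ee h u| ≤ |Real.log (2 * (1 + Real.cos (5 * Real.pi / 6)))| + |Real.log 6| := by
  have hpi := Real.pi_pos
  have h1 := Real.one_le_cosh (2 * Real.pi * h)
  have h2 : Real.cos (5 * Real.pi / 6) ≤ Real.cos (2 * Real.pi * u) := by
    rw [← Real.cos_abs (2 * Real.pi * u)]
    apply Real.cos_le_cos_of_nonneg_of_le_pi (abs_nonneg _) (by linarith)
    rw [abs_mul, abs_of_pos (by positivity : 0 < 2 * Real.pi)]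
    nlinarith
  have h3 := Real.cos_le_one (2 * Real.pi * u)
  have h4 : -1 < Real.cos (5 * Real.pi / 6) := by
    rw [← Real.cos_pi]
    apply Real.cos_lt_cos_of_nonneg_of_le_pi (by positivity) le_rfl (by linarith)
  unfold ee
  have h5 : Real.log (2 * (1 + Real.cos (5 * Real.pi / 6))) ≤
      Real.log (2 * (Real.cosh (2 * Real.pi * h) + Real.cos (2 * Real.pi * u))) := by
    apply Real.log_le_log (by linarith)
    linarith
  have h6 : Real.log (2 * (Real.cosh (2 * Real.pi * h) + Real.cos (2 * Real.pi * u))) ≤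
      Real.log 6 := by
    apply Real.log_le_log (by linarith)
    linarith
  have h7 := neg_abs_le (Real.log (2 * (1 + Real.cos (5 * Real.pi / 6))))
  have h8 := le_abs_self (Real.log 6)
  have h9 := abs_nonneg (Real.log (2 * (1 + Real.cos (5 * Real.pi / 6))))
  have h10 := abs_nonneg (Real.log 6)
  rw [abs_le]
  constructor <;> linarith

include hr hal in
lemma tendsto_win : Tendsto (fun b => win (al b / Real.pi) (b / Real.pi) (tau r (al b) b))
    (𝓝[<] (Real.pi / r)) (𝓝 0) := by
  have hpi := Real.pi_pos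
  have hr3 : (3 : ℝ) ≤ r := by exact_mod_cast hr
  have h4 := tendsto_tau hr hal
  set K := |Real.log (2 * (1 + Real.cos (5 * Real.pi / 6)))| + |Real.log 6| with hK
  have h5 : Tendsto (fun b => K * (2 * tau r (al b) b)) (𝓝[<] (Real.pi / r)) (𝓝 0) := by
    have := (h4.const_mul 2).const_mul K
    simpa using this
  apply squeeze_zero_norm' _ h5
  have e1 : ∀ᶠ b in 𝓝[<] (Real.pi / r), tau r (al b) b < 1 / 12 :=
    h4.eventually (gt_mem_nhds (by norm_num))
  have e2 : ∀ᶠ b in 𝓝[<] (Real.pi / r), Real.cosh (2 * al b) ≤ 2 := by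
    have hc : Continuous (fun a : ℝ => Real.cosh (2 * a)) := by fun_prop
    have := (hc.tendsto 0).comp (tendsto_al hr hal)
    rw [mul_zero, Real.cosh_zero] at this
    filter_upwards [this.eventually (gt_mem_nhds (by norm_num : (1 : ℝ) < 2))] with b hb
    exact hb.le
  filter_upwards [e1, e2, ev_crv hr hal] with b h1 h2 C
  have hm := C.tau_mem
  have hb := C.b_lt
  have hb0 := C.bpos
  have hx : b / Real.pi < 1 / 3 := by
    rw [div_lt_iff₀ hpi]; linarith
  have hx0 : 0 < b / Real.pi := by positivity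
  unfold win
  have h6 := intervalIntegral.norm_integral_le_of_norm_le_const (f := ee (al b / Real.pi))
    (a := b / Real.pi - tau r (al b) b) (b := b / Real.pi + tau r (al b) b) (C := K) ?_
  · have e : |b / Real.pi + tau r (al b) b - (b / Real.pi - tau r (al b) b)| =
        2 * tau r (al b) b := by
      rw [show b / Real.pi + tau r (al b) b - (b / Real.pi - tau r (al b) b) =
        2 * tau r (al b) b by ring, abs_of_pos (by linarith)]
    rwa [e] at h6
  · intro u hu
    rw [Set.uIoc_of_le (by linarith), Set.mem_Ioc] at hu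
    rw [Real.norm_eq_abs]
    apply ee_bound
    · rw [show 2 * Real.pi * (al b / Real.pi) = 2 * al b by field_simp]
      exact h2
    · rw [abs_le]
      constructor <;> linarith

include hr hal in
lemma tendsto_KK : Tendsto (fun b => KK r (1 / r) (al b / Real.pi) (b / Real.pi)
    (tau r (al b) b)) (𝓝[<] (Real.pi / r)) (𝓝 0) := by
  have hpi := Real.pi_pos
  have hr3 : (3 : ℝ) ≤ r := by exact_mod_cast hr
  unfold KK
  have h1 : Tendsto (fun b : ℝ => 2 * Real.pi * r * (b / Real.pi - 1 / r))
      (𝓝[<] (Real.pi / r)) (𝓝 0) := by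
    have hc : Continuous (fun b : ℝ => 2 * Real.pi * r * (b / Real.pi - 1 / r)) := by fun_prop
    have := (hc.tendsto (Real.pi / r)).mono_left (nhdsWithin_le_nhds (s := Set.Iio (Real.pi / r)))
    have e : 2 * Real.pi * r * (Real.pi / r / Real.pi - 1 / r) = 0 := by field_simp; ring
    rwa [e] at this
  have h2 := (tendsto_al hr hal).div_const Real.pi
  have h3 := (ll_cont.tendsto 0).comp (tendsto_tau hr hal)
  rw [ll_zero] at h3
  have h4 := ((h1.mul h2).sub (h3.const_mul 2)).add (tendsto_win hr hal)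
  simpa using h4

end lim

/-- the value of the volume on the curve -/
theorem Crv.value {r : ℕ} {a b : ℝ} (C : Crv r a b) :
    Lf r (ang r a b) = 4 * Real.pi * KK r (1 / r) (a / Real.pi) (b / Real.pi) (tau r a b) := by
  have hr := C.hr
  have hpi := Real.pi_pos
  have hr0 := C.rpos
  obtain ⟨al, hal⟩ := exists_graph hr
  have hal1 : ∀ b : ℝ, Real.pi < 2 * (r * b) → r * b < Real.pi → Crv r (al b) b :=
    fun b h1 h2 => (hal b h1 h2).1
  have ea : al b = a := (hal1 b C.blo C.bhi).unique C
  set Df : ℝ → ℝ := fun s => Lf r (ang r (al s) s) -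
    4 * Real.pi * KK r (1 / r) (al s / Real.pi) (s / Real.pi) (tau r (al s) s) with hDf
  have hd : ∀ s, Real.pi < 2 * (r * s) → r * s < Real.pi → HasDerivAt Df 0 s := by
    intro s h1 h2
    obtain ⟨C', d, hd⟩ := hal s h1 h2
    exact diff_path C' hd
  have hlim : Tendsto Df (𝓝[<] (Real.pi / r)) (𝓝 0) := by
    have := (tendsto_Lf hr hal1).sub ((tendsto_KK hr hal1).const_mul (4 * Real.pi))
    rw [mul_zero, sub_zero] at this
    exact this
  -- constant on the interval
  have hconst : ∀ s, b ≤ s → s < Real.pi / r → Df s = Df b := by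
    intro s hs1 hs2
    have hrs : r * s < Real.pi := by
      rw [lt_div_iff₀ hr0] at hs2; linarith
    have hb1 := C.blo
    have hmem : ∀ x ∈ Set.Icc b s, HasDerivAt Df 0 x := by
      intro x hx
      exact hd x (by nlinarith [hx.1]) (by nlinarith [hx.2])
    exact constant_of_has_deriv_right_zero
      (fun x hx => (hmem x hx).continuousAt.continuousWithinAt)
      (fun x hx => (hmem x ⟨hx.1, hx.2.le⟩).hasDerivWithinAt) s ⟨hs1, le_rfl⟩
  have hlim2 : Tendsto Df (𝓝[<] (Real.pi / r)) (𝓝 (Df b)) := by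
    apply tendsto_const_nhds.congr'
    have hb2 : b < Real.pi / r := by
      rw [lt_div_iff₀ hr0]; linarith [C.bhi]
    have h1 : ∀ᶠ s in 𝓝[<] (Real.pi / r), b < s :=
      eventually_nhdsWithin_of_eventually_nhds (lt_mem_nhds hb2)
    filter_upwards [h1, self_mem_nhdsWithin] with s hs1 hs2
    exact (hconst s hs1.le hs2).symm
  have h0 : Df b = 0 := tendsto_nhds_unique hlim2 hlim
  rw [hDf] at h0
  simp only [ea] at h0
  linarith

end Pool.Agent.Helper66.GF
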