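import Pool.Agent.Helper66.GF.Limit

/-!
# The saddle is on the curve
-/

namespace Pool.Agent.Helper66.GF

open Complex MeasureTheory
open Pool.Agent.Helper9.TB (ee ll win KK kap x0 WW Saddle)

lemma cosh_two_bt_normSq (a b k : ℝ) :
    normSq (2 * Complex.cosh (2 * bt a b) + ((2 * k : ℝ) : ℂ)) =
      4 * ((Real.cosh (2 * a) * Real.cos (2 * b) + k) ^ 2 +
        (Real.cosh (2 * a) ^ 2 - 1) * (1 - Real.cos (2 * b) ^ 2)) := by
  have e : 2 * Complex.cosh (2 * bt a b) + ((2 * k : ℝ) : ℂ) =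
      ((2 * (Real.cosh (2 * a) * Real.cos (2 * b) + k) : ℝ) : ℂ) +
        ((2 * (Real.sinh (2 * a) * Real.sin (2 * b)) : ℝ) : ℂ) * I := by
    have e1 : 2 * bt a b = ((2 * a : ℝ) : ℂ) + ((2 * b : ℝ) : ℂ) * I := by
      unfold bt; push_cast; ring
    rw [e1, cosh_mk]
    push_cast
    ring
  rw [e, normSq_apply, re_mk, im_mk]
  have h1 := Real.cosh_sq (2 * a)
  have h2 := Real.sin_sq_add_cos_sq (2 * b)
  have h3 : Real.sin (2 * b) ^ 2 = 1 - Real.cos (2 * b) ^ 2 := by linarith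
  have h4 : Real.sinh (2 * a) ^ 2 = Real.cosh (2 * a) ^ 2 - 1 := by linarith
  have h5 : 2 * (Real.sinh (2 * a) * Real.sin (2 * b)) *
    (2 * (Real.sinh (2 * a) * Real.sin (2 * b))) =
    4 * (Real.sinh (2 * a) ^ 2 * Real.sin (2 * b) ^ 2) := by ring
  rw [h5, h3, h4]
  ring

/-- `Re (e^{g_+} conj e^{g_-})` -/
lemma re_ratio {a : ℝ} (ha : 0 < a) (b t : ℝ) :
    Real.exp (gg (pt (a / Real.pi) (b / Real.pi + t))).re *
      Real.exp (gg (pt (a / Real.pi) (b / Real.pi - t))).re *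
      Real.cos ((gg (pt (a / Real.pi) (b / Real.pi + t))).im -
        (gg (pt (a / Real.pi) (b / Real.pi - t))).im) =
      2 * (Real.cosh (2 * a) * Real.cos (2 * Real.pi * t) + Real.cos (2 * b)) := by
  have hpi := Real.pi_pos
  have hz1 : 0 < (pt (a / Real.pi) (b / Real.pi + t)).re := by rw [pt_re]; positivity
  have hz2 : 0 < (pt (a / Real.pi) (b / Real.pi - t)).re := by rw [pt_re]; positivity
  have e1 := exp_gg hz1
  have e2 := exp_gg hz2
  rw [pi_pt_add] at e1
  rw [pi_pt_sub] at e2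
  have e3 : bt a b + ((Real.pi * t : ℝ) : ℂ) * I = (a : ℂ) + ((b + Real.pi * t : ℝ) : ℂ) * I := by
    unfold bt; push_cast; ring
  have e4 : bt a b - ((Real.pi * t : ℝ) : ℂ) * I = (a : ℂ) + ((b - Real.pi * t : ℝ) : ℂ) * I := by
    unfold bt; push_cast; ring
  rw [e3, cosh_mk] at e1
  rw [e4, cosh_mk] at e2
  set gp := gg (pt (a / Real.pi) (b / Real.pi + t))
  set gm := gg (pt (a / Real.pi) (b / Real.pi - t))
  have r1 := congrArg Complex.re e1
  have i1 := congrArg Complex.im e1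
  have r2 := congrArg Complex.re e2
  have i2 := congrArg Complex.im e2
  rw [exp_re, show (2 : ℂ) = ((2 : ℝ) : ℂ) by norm_num, re_ofReal_mul, re_mk] at r1 r2
  rw [exp_im, show (2 : ℂ) = ((2 : ℝ) : ℂ) by norm_num, im_ofReal_mul, im_mk] at i1 i2
  rw [Real.cos_sub]
  have h1 : Real.exp gp.re * Real.exp gm.re * (Real.cos gp.im * Real.cos gm.im +
      Real.sin gp.im * Real.sin gm.im) =
      (Real.exp gp.re * Real.cos gp.im) * (Real.exp gm.re * Real.cos gm.im) +
      (Real.exp gp.re * Real.sin gp.im) * (Real.exp gm.re * Real.sin gm.im) := by ring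
  rw [h1, r1, r2, i1, i2, Real.cos_add, Real.cos_sub, Real.sin_add, Real.sin_sub,
    show 2 * Real.pi * t = 2 * (Real.pi * t) by ring, Real.cosh_two_mul, Real.cos_two_mul,
    Real.cos_two_mul]
  have s1 := Real.sin_sq_add_cos_sq b
  have s2 := Real.sin_sq_add_cos_sq (Real.pi * t)
  have s3 : Real.sin b ^ 2 = 1 - Real.cos b ^ 2 := by linarith
  have s4 : Real.sin (Real.pi * t) ^ 2 = 1 - Real.cos (Real.pi * t) ^ 2 := by linarith
  have s5 := Real.cosh_sq a
  have h2 : 2 * (Real.cosh a * (Real.cos b * Real.cos (Real.pi * t) -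
      Real.sin b * Real.sin (Real.pi * t))) * (2 * (Real.cosh a * (Real.cos b *
      Real.cos (Real.pi * t) + Real.sin b * Real.sin (Real.pi * t)))) +
      2 * (Real.sinh a * (Real.sin b * Real.cos (Real.pi * t) +
      Real.cos b * Real.sin (Real.pi * t))) * (2 * (Real.sinh a * (Real.sin b *
      Real.cos (Real.pi * t) - Real.cos b * Real.sin (Real.pi * t)))) =
      4 * Real.cosh a ^ 2 * (Real.cos b ^ 2 * Real.cos (Real.pi * t) ^ 2 -
        Real.sin b ^ 2 * Real.sin (Real.pi * t) ^ 2) +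
      4 * Real.sinh a ^ 2 * (Real.sin b ^ 2 * Real.cos (Real.pi * t) ^ 2 -
        Real.cos b ^ 2 * Real.sin (Real.pi * t) ^ 2) := by ring
  rw [h2, s3, s4, s5]
  ring

/-- the saddle lies on the curve -/
theorem saddle_curve {r : ℕ} (hr : 4 ≤ r) {h ξ : ℝ} (H : Saddle r (1 / r) h ξ) :
    Crv r (Real.pi * h) (Real.pi * ξ) ∧
      ‖EE (Real.pi * h) (Real.pi * ξ) r‖ = ‖EE (Real.pi * h) (Real.pi * ξ) 1‖ ∧
      tau r (Real.pi * h) (Real.pi * ξ) = x0 h ξ := by
  have hpi := Real.pi_pos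
  have hr4 : (4 : ℝ) ≤ r := by exact_mod_cast hr
  have hr0 : (0 : ℝ) < r := by linarith
  have hh := H.hpos
  have hx := H.xpos
  have hx1 := H.xlt
  have hx2 : r * ξ < 1 := by
    rw [lt_div_iff₀ hr0] at hx1; linarith
  have hx3 : ξ < 1 / 4 := by
    apply hx1.trans_le
    apply one_div_le_one_div_of_le (by norm_num) hr4
  set a := Real.pi * h with ha
  set b := Real.pi * ξ with hb
  have ha0 : 0 < a := by positivity
  have hb0 : 0 < b := by positivity
  have eh : a / Real.pi = h := by rw [ha]; field_simp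
  have ex : b / Real.pi = ξ := by rw [hb]; field_simp
  have s1 := H.s1
  have s2 := H.s2
  have small := H.small
  unfold WW at s1
  have e1 : 2 * Real.pi * h = 2 * a := by rw [ha]; ring
  have e2 : 2 * Real.pi * ξ = 2 * b := by rw [hb]; ring
  have e3 : 2 * Real.pi * r * h = 2 * (r * a) := by rw [ha]; ring
  rw [e1, e2, e3] at s1
  rw [e1, e3] at small
  have hkap : kap h ξ = (2 - Real.cos (2 * b) ^ 2 - Real.cosh (2 * a) ^ 2) /
      (1 + Real.cos (2 * b) * Real.cosh (2 * a)) := by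
    unfold kap; rw [e1, e2]
  set Hc := Real.cosh (2 * a) with hHc
  set Cc := Real.cos (2 * b) with hCc
  set X := Real.cosh (2 * (r * a)) with hX
  set Y := Real.cos (2 * (r * b)) with hY
  have C0 : 0 < Cc := Real.cos_pos_of_mem_Ioo ⟨by linarith, by rw [hb]; nlinarith⟩
  have H1 : 1 < Hc := Real.one_lt_cosh.2 (by positivity)
  have X1 : 1 ≤ X := Real.one_le_cosh _
  have H2 : Hc < 2 := by nlinarith
  have C1 : Cc ≤ 1 := Real.cos_le_one _
  have D0 : 0 < 1 + Cc * Hc := by positivity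
  set k := kap h ξ / 2 with hk
  have kD : 2 * k * (1 + Cc * Hc) = 2 - Cc ^ 2 - Hc ^ 2 := by
    rw [hk, hkap]; field_simp
  have k1 : k < 1 := by
    by_contra hneg
    push Not at hneg
    nlinarith [sq_nonneg (Cc + Hc), mul_le_mul_of_nonneg_right hneg D0.le]
  have k2 : -1 < k := by
    by_contra hneg
    push Not at hneg
    nlinarith [mul_le_mul_of_nonneg_right hneg D0.le, mul_pos (by linarith : 0 < 2 - (Hc - Cc))
      (by linarith : 0 < 2 + (Hc - Cc))]
  have hx0 : 2 * Real.pi * x0 h ξ = Real.arccos k := by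
    unfold x0; rw [← hk]; field_simp
  have hcosx0 : Real.cos (2 * Real.pi * x0 h ξ) = k := by
    rw [hx0, Real.cos_arccos k2.le k1.le]
  have hx0pos : 0 < x0 h ξ := by
    have : 0 < Real.arccos k := Real.arccos_pos.2 k1
    rw [← hx0] at this
    by_contra hneg
    push Not at hneg
    nlinarith
  have hx0lt : x0 h ξ < 1 / 2 := by
    have : Real.arccos k < Real.pi := by
      refine lt_of_le_of_ne (Real.arccos_le_pi k) ?_
      intro h0
      have := (Real.arccos_eq_pi.1 h0)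
      linarith
    rw [← hx0] at this
    by_contra hneg
    push Not at hneg
    nlinarith
  rw [gg_im_integral hh] at s2
  obtain ⟨w1, w2⟩ := gg_im_window (x := ξ) hh hx0pos hx0lt
  have hre := re_ratio ha0 b (x0 h ξ)
  rw [eh, ex, ← s2, hcosx0] at hre
  have hprod := prod_gg ha0 b (x0 h ξ)
  rw [eh, ex, hcosx0] at hprod
  have hprod2 := congrArg normSq hprod
  rw [cosh_two_bt_normSq] at hprod2
  have hk2 : 4 * ((Hc * Cc + k) ^ 2 + (Hc ^ 2 - 1) * (1 - Cc ^ 2)) = (2 * (1 - k)) ^ 2 := by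
    linear_combination 4 * kD
  rw [hk2, ← Complex.sq_norm, norm_mul, norm_exp, norm_exp] at hprod2
  have hprod3 : Real.exp (gg (pt h (ξ + x0 h ξ))).re * Real.exp (gg (pt h (ξ - x0 h ξ))).re =
      2 * (1 - k) :=
    (pow_left_inj₀ (by positivity) (by linarith) two_ne_zero).1 hprod2
  rw [hprod3] at hre
  have eΔ : 2 * Real.pi * r * (1 / r - ξ) = 2 * Real.pi - 2 * (r * b) := by
    rw [hb]; field_simp
  rw [eΔ] at hre s2
  rw [Real.cos_two_pi_sub, ← hY] at hre
  have hlo : Real.pi < 2 * (r * b) := by linarith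
  have hhi : r * b < Real.pi := by rw [hb]; nlinarith
  have hHC : 0 < Hc + Cc := by linarith
  -- Y (C + H) = 2 + C H - H ^ 2
  have hYe : Y * (Hc + Cc) = 2 + Cc * Hc - Hc ^ 2 := by
    have h1 : (Hc + Cc) * (Y * (Hc + Cc)) = (Hc + Cc) * (2 + Cc * Hc - Hc ^ 2) := by
      have h2 : (1 - k) * Y = Hc * k + Cc := by linarith
      have h3 : (1 + Cc * Hc) * (2 * ((1 - k) * Y)) = (1 + Cc * Hc) * (2 * (Hc * k + Cc)) := by
        rw [h2]
      have h4 : (Hc + Cc) ^ 2 * Y = 2 * Cc * (1 + Cc * Hc) + Hc * (2 - Cc ^ 2 - Hc ^ 2) := by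
        linear_combination h3 + (Hc + Y) * kD
      linear_combination h4
    exact mul_left_cancel₀ hHC.ne' h1
  have hXe : X * (Hc + Cc) = 2 + Cc * Hc - Cc ^ 2 := by
    rw [s1]; field_simp
  have hXY : X - Y = Hc - Cc := by
    apply mul_right_cancel₀ hHC.ne'
    linear_combination hXe - hYe
  have hsin1 : Real.sin (2 * (r * b)) ≤ 0 := by
    have : Real.sin (2 * (r * b)) = - Real.sin (2 * (r * b) - Real.pi) := by
      rw [Real.sin_sub_pi]; ring
    rw [this]
    have := Real.sin_nonneg_of_nonneg_of_le_pi (by linarith : 0 ≤ 2 * (r * b) - Real.pi)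
      (by linarith)
    linarith
  have hsin2 : 0 ≤ Real.sin (2 * b) := by
    apply Real.sin_nonneg_of_nonneg_of_le_pi (by linarith)
    rw [hb]; nlinarith
  have hcurve : Real.sinh (2 * (r * a)) * Real.sinh (2 * a) =
      -(Real.sin (2 * (r * b)) * Real.sin (2 * b)) := by
    have n1 : 0 ≤ Real.sinh (2 * (r * a)) * Real.sinh (2 * a) := by
      apply mul_nonneg
      · exact Real.sinh_nonneg_iff.2 (by positivity)
      · exact Real.sinh_nonneg_iff.2 (by positivity)
    have n2 : 0 ≤ -(Real.sin (2 * (r * b)) * Real.sin (2 * b)) := by nlinarith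
    apply (pow_left_inj₀ n1 n2 two_ne_zero).1
    rw [mul_pow, neg_sq, mul_pow]
    have q1 := Real.cosh_sq (2 * (r * a))
    have q2 := Real.cosh_sq (2 * a)
    have q3 := Real.sin_sq_add_cos_sq (2 * (r * b))
    have q4 := Real.sin_sq_add_cos_sq (2 * b)
    have q5 : Real.sinh (2 * (r * a)) ^ 2 = X ^ 2 - 1 := by linarith
    have q6 : Real.sinh (2 * a) ^ 2 = Hc ^ 2 - 1 := by linarith
    have q7 : Real.sin (2 * (r * b)) ^ 2 = 1 - Y ^ 2 := by linarith
    have q8 : Real.sin (2 * b) ^ 2 = 1 - Cc ^ 2 := by linarith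
    rw [q5, q6, q7, q8]
    have hne : (Hc + Cc) ^ 2 ≠ 0 := by positivity
    apply mul_left_cancel₀ hne
    have : ((X * (Hc + Cc)) ^ 2 - (Hc + Cc) ^ 2) * (Hc ^ 2 - 1) =
        ((Hc + Cc) ^ 2 - (Y * (Hc + Cc)) ^ 2) * (1 - Cc ^ 2) := by
      rw [hXe, hYe]; ring
    linear_combination this
  have C : Crv r a b := ⟨by omega, ha0, hlo, hhi, hcurve⟩
  have hnorm : ‖EE a b r‖ = ‖EE a b 1‖ := by
    have h1 := EE_normSq a b r
    have h2 := EE_normSq a b 1
    rw [Nat.cast_one, one_mul, one_mul] at h2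
    rw [← Complex.sq_norm] at h1 h2
    apply (pow_left_inj₀ (norm_nonneg _) (norm_nonneg _) two_ne_zero).1
    rw [h1, h2]
    linarith
  refine ⟨C, hnorm, ?_⟩
  -- τ = x0
  have h1 := congrArg normSq C.rel_tau
  rw [map_mul, map_pow, normSq_neg, map_mul, map_pow, ← Complex.sq_norm (EE a b r),
    ← Complex.sq_norm (EE a b 1), hnorm, normSq_ofReal, cosh_two_bt_normSq] at h1
  have hF : (‖EE a b 1‖ ^ 2) ^ 2 ≠ 0 := by
    have := C.norm_pos (j := 1) (by omega) (by omega)
    positivity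
  have h2 := mul_right_cancel₀ hF h1
  set k' := Real.cos (2 * Real.pi * tau r a b) with hk'
  have h3 : 2 * k' * (1 + Cc * Hc) = 2 - Cc ^ 2 - Hc ^ 2 := by
    linear_combination h2 / 4
  have h4 : k' = k := by
    have : 2 * k' * (1 + Cc * Hc) = 2 * k * (1 + Cc * Hc) := by rw [h3, kD]
    have := mul_right_cancel₀ D0.ne' this
    linarith
  have hm := C.tau_mem
  have h5 : Real.arccos k' = 2 * Real.pi * tau r a b := by
    rw [hk']
    apply Real.arccos_cos
    · have := hm.1; positivity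
    · nlinarith [hm.2]
  rw [h4, ← hx0] at h5
  have h6 : (2 * Real.pi) * x0 h ξ = (2 * Real.pi) * tau r a b := h5
  exact (mul_left_cancel₀ (by positivity) h6).symm

end Pool.Agent.Helper66.GF
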