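import Mathlib
import Pool.Agent.Helper66.GF.Sad
import Pool.Agent.Helper9.TB.GFDefs

/-!
# The maximum of the angle structure volume functional of `C(r, r)`
-/

namespace Pool.Agent.Helper66.GF

open Pool.Agent.Helper9.TB (ee ll win KK kap x0 WW Saddle Lob gx gy gz Adm gvol)
open Pool.Agent.Helper9.Kashaev (HH)
open Pool.Agent.Helper11.Kash (HH_tangent)

lemma Lob_eq (t : ℝ) : Lob t = - HH t := rfl

/-- layer index folded at the hinge -/
def mm (r i : ℕ) : ℕ := min i (2 * r - i)

/-- the critical pleating angles -/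
noncomputable def ws (r : ℕ) (A : ℕ → ℝ) (i : ℕ) : ℝ := Real.pi - 2 * A (mm r i)

lemma sum_Icc (r : ℕ) (hr : 2 ≤ r) (f : ℕ → ℝ) :
    ∑ i ∈ Finset.Icc 2 (2 * r - 2), f i = ∑ k ∈ Finset.range (2 * r - 3), f (k + 2) := by
  have h : Finset.Icc 2 (2 * r - 2) = Finset.Ico 2 (2 * r - 1) := by
    ext i; simp only [Finset.mem_Icc, Finset.mem_Ico]; omega
  rw [h, Finset.sum_Ico_eq_sum_range, show 2 * r - 1 - 2 = 2 * r - 3 by omega]
  apply Finset.sum_congr rfl
  intro k _
  rw [add_comm]

lemma sum_fold (r : ℕ) (hr : 2 ≤ r) (F : ℕ → ℝ) :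
    ∑ k ∈ Finset.range (2 * r - 3), F (mm r (k + 2) - 1) =
      2 * ∑ j ∈ Finset.range (r - 2), F (j + 1) + F (r - 1) := by
  obtain ⟨n, rfl⟩ : ∃ n, r = n + 2 := ⟨r - 2, by omega⟩
  rw [show 2 * (n + 2) - 3 = (n + 1) + n by omega, Finset.sum_range_add, Finset.sum_range_succ]
  simp only [Nat.add_sub_cancel]
  have e1 : ∑ k ∈ Finset.range n, F (mm (n + 2) (k + 2) - 1) =
      ∑ j ∈ Finset.range n, F (j + 1) := by
    apply Finset.sum_congr rfl
    intro k hk
    rw [Finset.mem_range] at hk
    congr 1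
    unfold mm
    omega
  have e2 : ∑ k ∈ Finset.range n, F (mm (n + 2) (n + 1 + k + 2) - 1) =
      ∑ j ∈ Finset.range n, F (j + 1) := by
    rw [← Finset.sum_range_reflect (fun j => F (j + 1)) n]
    apply Finset.sum_congr rfl
    intro k hk
    rw [Finset.mem_range] at hk
    congr 1
    unfold mm
    omega
  have e3 : mm (n + 2) (n + 2) - 1 = n + 2 - 1 := by unfold mm; omega
  rw [e1, e2, e3]
  simp only [show n + 2 - 1 = n + 1 by omega]
  ring

/-- telescoping sum of discrete Wronskians -/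
lemma wronski (σ δ : ℕ → ℝ) (n : ℕ) :
    ∑ k ∈ Finset.range n, (σ (k + 2) * (δ (k + 1) + δ (k + 3)) -
      (σ (k + 1) + σ (k + 3)) * δ (k + 2)) =
      (σ (n + 1) * δ (n + 2) - σ (n + 2) * δ (n + 1)) - (σ 1 * δ 2 - σ 2 * δ 1) := by
  induction n with
  | zero => simp
  | succ n ih =>
    rw [Finset.sum_range_succ, ih]
    ring

section crit

variable {r : ℕ} {a b : ℝ} (C : Crv r a b) (hn : ‖EE a b r‖ = ‖EE a b 1‖)

include C hn in
lemma hinge_eq : Real.pi - (ang r a b (r - 1) + ang r a b (r + 1)) =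
    Real.pi / 2 - ang r a b r := by
  have hr := C.hr
  have hpi := Real.pi_pos
  obtain ⟨p1, p2, p3⟩ := C.angles_pos (j := r - 1) (by omega) (by omega)
  obtain ⟨l1, -⟩ := C.log_sines (j := r - 1) (by omega) (by omega)
  rw [show r - 1 + 1 = r by omega, show r - 1 + 2 = r + 1 by omega] at *
  have s0 : ss a b r = 0 := by unfold ss; rw [hn]; ring
  rw [s0, mul_zero, sub_eq_zero] at l1
  set x := Real.pi - (ang r a b (r - 1) + ang r a b (r + 1)) with hx
  set y := ang r a b (r - 1) + ang r a b (r + 1) - 2 * ang r a b r with hy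
  have hxy : x + y = Real.pi - 2 * ang r a b r := by rw [hx, hy]; ring
  have hsx : 0 < Real.sin x := Real.sin_pos_of_pos_of_lt_pi p1 (by linarith)
  have hsy : 0 < Real.sin y := Real.sin_pos_of_pos_of_lt_pi p2 (by linarith)
  have h1 : 2 * Real.sin x = 2 * Real.sin y :=
    Real.log_injOn_pos (Set.mem_Ioi.2 (by positivity)) (Set.mem_Ioi.2 (by positivity)) l1
  have h2 : Real.sin x - Real.sin y = 0 := by linarith
  rw [Real.sin_sub_sin] at h2
  have h3 : 0 < Real.cos ((x + y) / 2) :=
    Real.cos_pos_of_mem_Ioo ⟨by linarith, by linarith⟩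
  have h4 : Real.sin ((x - y) / 2) = 0 := by
    rcases mul_eq_zero.1 h2 with h | h
    · linarith
    · exact absurd h h3.ne'
  have h5 : (x - y) / 2 = 0 := by
    apply (Real.sin_eq_zero_iff_of_lt_of_lt _ _).1 h4
    · linarith
    · linarith
  linarith

include C hn in
lemma ws_angles {i : ℕ} (h2 : 2 ≤ i) (hi : i ≤ 2 * r - 2) :
    gx r (ws r (ang r a b)) i = Real.pi - (ang r a b (mm r i - 1) + ang r a b (mm r i - 1 + 2)) ∧
    gy r (ws r (ang r a b)) i = ang r a b (mm r i - 1) + ang r a b (mm r i - 1 + 2) -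
      2 * ang r a b (mm r i - 1 + 1) ∧
    gz (ws r (ang r a b)) i = 2 * ang r a b (mm r i - 1 + 1) := by
  have hr := C.hr
  have hg : gx r (ws r (ang r a b)) i =
      Real.pi - (ang r a b (mm r i - 1) + ang r a b (mm r i - 1 + 2)) := by
    rcases lt_trichotomy i r with h | h | h
    · unfold gx ws
      rw [if_neg (by omega)]
      have e1 : mm r (i - 1) = i - 1 := by unfold mm; omega
      have e2 : mm r (i + 1) = i + 1 := by unfold mm; omega
      have e3 : mm r i = i := by unfold mm; omega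
      rw [e1, e2, e3, show i - 1 + 2 = i + 1 by omega]
      ring
    · unfold gx ws
      rw [if_pos h, h]
      have e1 : mm r (r - 1) = r - 1 := by unfold mm; omega
      have e2 : mm r (r + 1) = r - 1 := by unfold mm; omega
      have e3 : mm r r = r := by unfold mm; omega
      rw [e1, e2, e3, show r - 1 + 2 = r + 1 by omega, hinge_eq C hn]
      ring
    · unfold gx ws
      rw [if_neg (by omega)]
      have e1 : mm r (i - 1) = 2 * r - i - 1 + 2 := by unfold mm; omega
      have e2 : mm r (i + 1) = 2 * r - i - 1 := by unfold mm; omega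
      have e3 : mm r i = 2 * r - i := by unfold mm; omega
      rw [e1, e2, e3]
      ring
  have hm : mm r i - 1 + 1 = mm r i := by unfold mm; omega
  refine ⟨hg, ?_, ?_⟩
  · unfold gy
    rw [hg, hm]
    unfold ws
    ring
  · unfold gz ws
    rw [hm]
    ring

include C hn in
lemma ws_adm : Adm r (ws r (ang r a b)) := by
  have hr := C.hr
  refine ⟨?_, ?_, ?_⟩
  · unfold ws
    rw [show mm r 1 = 1 by unfold mm; omega, C.ang_one]
    ring
  · unfold ws
    rw [show mm r (2 * r - 1) = 1 by unfold mm; omega, C.ang_one]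
    ring
  · intro i h2 hi
    obtain ⟨e1, e2, e3⟩ := ws_angles C hn h2 hi
    rw [e1, e2, e3]
    obtain ⟨p1, p2, p3⟩ := C.angles_pos (j := mm r i - 1) (by unfold mm; omega)
      (by unfold mm; omega)
    exact ⟨p1.le, p2.le, p3.le⟩

include C hn in
lemma ws_vol : gvol r (ws r (ang r a b)) = Lf r (ang r a b) := by
  have hr := C.hr
  unfold gvol
  rw [sum_Icc r (by omega)]
  have h1 : ∑ k ∈ Finset.range (2 * r - 3), 2 * (Lob (gx r (ws r (ang r a b)) (k + 2)) +
      Lob (gy r (ws r (ang r a b)) (k + 2)) + Lob (gz (ws r (ang r a b)) (k + 2))) =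
      ∑ k ∈ Finset.range (2 * r - 3), 2 * vj (ang r a b) (mm r (k + 2) - 1) := by
    apply Finset.sum_congr rfl
    intro k hk
    rw [Finset.mem_range] at hk
    obtain ⟨e1, e2, e3⟩ := ws_angles C hn (i := k + 2) (by omega) (by omega)
    rw [e1, e2, e3]
    unfold vj vv
    simp only [Lob_eq]
    ring
  rw [h1, sum_fold r (by omega) (fun j => 2 * vj (ang r a b) j)]
  unfold Lf
  rw [← Finset.mul_sum]
  ring

include C hn in
/-- the first variation at the critical point -/
lemma first_var {w : ℕ → ℝ} {i : ℕ} (h2 : 2 ≤ i) (hi : i ≤ 2 * r - 2) :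
    Real.log (2 * Real.sin (gx r (ws r (ang r a b)) i)) *
        (gx r w i - gx r (ws r (ang r a b)) i) +
      Real.log (2 * Real.sin (gy r (ws r (ang r a b)) i)) *
        (gy r w i - gy r (ws r (ang r a b)) i) +
      Real.log (2 * Real.sin (gz (ws r (ang r a b)) i)) *
        (gz w i - gz (ws r (ang r a b)) i) =
    ss a b (mm r i) * ((w (i - 1) - ws r (ang r a b) (i - 1)) +
      (w (i + 1) - ws r (ang r a b) (i + 1))) -
    (ss a b (mm r (i - 1)) + ss a b (mm r (i + 1))) * (w i - ws r (ang r a b) i) := by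
  have hr := C.hr
  obtain ⟨e1, e2, e3⟩ := ws_angles C hn h2 hi
  obtain ⟨l1, l2⟩ := C.log_sines (j := mm r i - 1) (by unfold mm; omega) (by unfold mm; omega)
  rw [← e1, ← e2] at l1
  rw [← e2, ← e3] at l2
  have hm : mm r i - 1 + 1 = mm r i := by unfold mm; omega
  rw [hm] at l1
  have hss : ss a b (mm r i - 1) + ss a b (mm r i - 1 + 2) =
      ss a b (mm r (i - 1)) + ss a b (mm r (i + 1)) := by
    rcases lt_trichotomy i r with h | h | h
    · rw [show mm r i - 1 = mm r (i - 1) by unfold mm; omega,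
        show mm r (i - 1) + 2 = mm r (i + 1) by unfold mm; omega]
    · rw [h, show mm r r - 1 = r - 1 by unfold mm; omega, show mm r (r - 1) = r - 1 by
        unfold mm; omega, show mm r (r + 1) = r - 1 by unfold mm; omega,
        show r - 1 + 2 = r + 1 by omega]
      have : ss a b (r + 1) = ss a b (r - 1) := by unfold ss; rw [C.norm_eq]
      rw [this]
    · rw [show mm r i - 1 = mm r (i + 1) by unfold mm; omega,
        show mm r (i + 1) + 2 = mm r (i - 1) by unfold mm; omega]
      ring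
  rw [hss] at l2
  generalize Real.log (2 * Real.sin (gx r (ws r (ang r a b)) i)) = lx at *
  generalize Real.log (2 * Real.sin (gy r (ws r (ang r a b)) i)) = ly at *
  generalize Real.log (2 * Real.sin (gz (ws r (ang r a b)) i)) = lz at *
  by_cases h : i = r
  · have s0 : ss a b (mm r i) = 0 := by
      rw [h, show mm r r = r by unfold mm; omega]
      unfold ss; rw [hn]; ring
    rw [s0] at l1 ⊢
    unfold gy gx gz
    rw [if_pos h, if_pos h]
    linear_combination (w i / 2 + w (i - 1) / 2 - w (i + 1) / 2 -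
      (ws r (ang r a b) i / 2 + ws r (ang r a b) (i - 1) / 2 -
        ws r (ang r a b) (i + 1) / 2)) * l1 - (w i - ws r (ang r a b) i) * l2
  · unfold gy gx gz
    rw [if_neg h, if_neg h]
    linear_combination ((w (i - 1) - ws r (ang r a b) (i - 1)) +
      (w (i + 1) - ws r (ang r a b) (i + 1))) / 2 * l1 - (w i - ws r (ang r a b) i) * l2

include C hn in
theorem vol_le {w : ℕ → ℝ} (hw : Adm r w) : gvol r w ≤ gvol r (ws r (ang r a b)) := by
  have hr := C.hr
  set A := ang r a b with hA
  have key : ∀ i, 2 ≤ i → i ≤ 2 * r - 2 →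
      2 * (Lob (gx r w i) + Lob (gy r w i) + Lob (gz w i)) ≤
      2 * (Lob (gx r (ws r A) i) + Lob (gy r (ws r A) i) + Lob (gz (ws r A) i)) -
      2 * (ss a b (mm r i) * ((w (i - 1) - ws r A (i - 1)) + (w (i + 1) - ws r A (i + 1))) -
        (ss a b (mm r (i - 1)) + ss a b (mm r (i + 1))) * (w i - ws r A i)) := by
    intro i h2 hi
    obtain ⟨q1, q2, q3⟩ := hw.nonneg i h2 hi
    obtain ⟨e1, e2, e3⟩ := ws_angles C hn h2 hi
    obtain ⟨p1, p2, p3⟩ := C.angles_pos (j := mm r i - 1) (by unfold mm; omega)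
      (by unfold mm; omega)
    rw [← e1] at p1
    rw [← e2] at p2
    rw [← e3] at p3
    have s1 : gx r w i + gy r w i + gz w i = Real.pi := by unfold gy gz; ring
    have s2 : gx r (ws r A) i + gy r (ws r A) i + gz (ws r A) i = Real.pi := by
      unfold gy gz; ring
    have ht := HH_tangent q1 q2 q3 s1 p1 p2 p3 s2
    have hv := first_var C hn (w := w) h2 hi
    simp only [Lob_eq]
    linarith
  unfold gvol
  rw [sum_Icc r (by omega), sum_Icc r (by omega)]
  have h1 : ∑ k ∈ Finset.range (2 * r - 3),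
      2 * (Lob (gx r w (k + 2)) + Lob (gy r w (k + 2)) + Lob (gz w (k + 2))) ≤
      ∑ k ∈ Finset.range (2 * r - 3),
      (2 * (Lob (gx r (ws r A) (k + 2)) + Lob (gy r (ws r A) (k + 2)) +
        Lob (gz (ws r A) (k + 2))) -
      2 * ((fun i => ss a b (mm r i)) (k + 2) * ((fun i => w i - ws r A i) (k + 1) +
        (fun i => w i - ws r A i) (k + 3)) -
        ((fun i => ss a b (mm r i)) (k + 1) + (fun i => ss a b (mm r i)) (k + 3)) *
          (fun i => w i - ws r A i) (k + 2))) := by
    apply Finset.sum_le_sum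
    intro k hk
    rw [Finset.mem_range] at hk
    exact key (k + 2) (by omega) (by omega)
  refine h1.trans ?_
  rw [Finset.sum_sub_distrib, ← Finset.mul_sum _ _ (2 : ℝ), ← Finset.mul_sum _ _ (2 : ℝ),
    wronski (fun i => ss a b (mm r i)) (fun i => w i - ws r A i)]
  have z1 : ss a b (mm r 1) = 0 := by
    rw [show mm r 1 = 1 by unfold mm; omega]; unfold ss; ring
  have z2 : ss a b (mm r (2 * r - 1)) = 0 := by
    rw [show mm r (2 * r - 1) = 1 by unfold mm; omega]; unfold ss; ring
  have hadm := ws_adm C hn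
  have z3 : w 1 - ws r A 1 = 0 := by rw [hw.first, hadm.first]; ring
  have z4 : w (2 * r - 1) - ws r A (2 * r - 1) = 0 := by rw [hw.last, hadm.last]; ring
  simp only [show 2 * r - 3 + 2 = 2 * r - 1 by omega, z1, z2, z3, z4]
  apply le_of_eq
  ring

end crit

/-- The maximum of the volume functional on the polytope of angle structures of `C(r, r)`
is `4 π` times the critical value of the exponent. -/
theorem gf_isGreatest (r : ℕ) (hr : 4 ≤ r) (h ξ : ℝ) (H : Saddle r (1 / r) h ξ) :
    IsGreatest {x | ∃ w, Adm r w ∧ gvol r w = x}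
      (4 * Real.pi * KK r (1 / r) h ξ (x0 h ξ)) := by
  have hpi := Real.pi_pos
  obtain ⟨C, hn, hτ⟩ := saddle_curve hr H
  have hv := C.value
  rw [hτ, mul_div_cancel_left₀ h hpi.ne', mul_div_cancel_left₀ ξ hpi.ne'] at hv
  rw [← hv, ← ws_vol C hn]
  constructor
  · exact ⟨_, ws_adm C hn, rfl⟩
  · rintro x ⟨w, hw, rfl⟩
    exact vol_le C hn hw

end Pool.Agent.Helper66.GF
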