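import Pool.Agent.Helper66.GF.Rel

/-!
# Derivatives along the curve
-/

namespace Pool.Agent.Helper66.GF

open Complex MeasureTheory
open Pool.Agent.Helper9.TB (ee ll win KK)
open Pool.Agent.Helper9.Kashaev (HH HH_cont)
open Pool.Agent.Helper11.Kash (HH_deriv)

/-- volume of an ideal tetrahedron -/
noncomputable def vv (x y z : ℝ) : ℝ := -(HH x + HH y + HH z)

/-- volume of the tetrahedron of the layer `j + 1` -/
noncomputable def vj (A : ℕ → ℝ) (j : ℕ) : ℝ :=
  vv (Real.pi - (A j + A (j + 2))) (A j + A (j + 2) - 2 * A (j + 1)) (2 * A (j + 1))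

/-- total volume -/
noncomputable def Lf (r : ℕ) (A : ℕ → ℝ) : ℝ :=
  4 * ∑ j ∈ Finset.range (r - 2), vj A (j + 1) + 2 * vj A (r - 1)

lemma hasDerivAt_arg {f : ℝ → ℂ} {f' : ℂ} {t : ℝ} (hf : HasDerivAt f f' t)
    (h : f t ∈ slitPlane) : ∃ d : ℝ, HasDerivAt (fun s => arg (f s)) d t := by
  have h1 := hasDerivAt_im (hf.clog_real h)
  refine ⟨_, h1.congr_of_eventuallyEq ?_⟩
  exact Filter.Eventually.of_forall fun s => (log_im (f s)).symm

section path

variable {r : ℕ} {al : ℝ → ℝ} {t al' : ℝ} (C : Crv r (al t) t) (hal : HasDerivAt al al' t)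

include hal in
lemma bt_path : HasDerivAt (fun s => bt (al s) s) (al' + I) t := by
  unfold bt
  have h1 := hal.ofReal_comp
  have h2 := ((hasDerivAt_id t).ofReal_comp.mul_const I)
  have := h1.fun_add h2
  simpa using this

include C hal in
lemma psi_path {j : ℕ} (hj : 1 ≤ j) (hjr : j ≤ r) :
    ∃ d, HasDerivAt (fun s => psi (al s) s j) d t := by
  have h1 : HasDerivAt (fun s => EE (al s) s j) _ t :=
    (Complex.hasDerivAt_sinh _).comp_of_eq t ((bt_path hal).const_mul (j : ℂ)) rfl
  exact hasDerivAt_arg h1 (Or.inr (EE_im_pos C.bpos C.bhi hj hjr).ne')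

include C hal in
lemma kp_path : ∃ d, HasDerivAt (fun s => kp (al s) s) d t := by
  have h1 : HasDerivAt (fun s => ch (al s) s) _ t :=
    (Complex.hasDerivAt_cosh _).comp_of_eq t (bt_path hal) rfl
  refine hasDerivAt_arg h1 ?_
  right
  rw [ch_im]
  have h1 : 0 < Real.sinh (al t) := Real.sinh_pos_iff.2 C.apos
  have hb := C.b_lt
  have hpi := Real.pi_pos
  have h2 : 0 < Real.sin t := Real.sin_pos_of_pos_of_lt_pi C.bpos (by linarith)
  positivity

include C hal in
lemma ang_path : ∃ D : ℕ → ℝ, (∀ j, 1 ≤ j → j ≤ r + 1 →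
    HasDerivAt (fun s => ang r (al s) s j) (D j) t) ∧ D 1 = 0 ∧
    HasDerivAt (fun s => tau r (al s) s) ((D (r - 1) - D (r + 1)) / (2 * Real.pi)) t := by
  have hr := C.hr
  have hpi := Real.pi_pos
  have h1 : ∀ j : ℕ, ∃ d : ℝ, 1 ≤ j → j ≤ r → HasDerivAt (fun s => psi (al s) s j) d t := by
    intro j
    by_cases h : 1 ≤ j ∧ j ≤ r
    · obtain ⟨d, hd⟩ := psi_path C hal h.1 h.2
      exact ⟨d, fun _ _ => hd⟩
    · exact ⟨0, fun ha hb => absurd ⟨ha, hb⟩ h⟩
  choose d hd using h1
  obtain ⟨k, hk⟩ := kp_path C hal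
  refine ⟨fun j => if j ≤ r then d j - d 1 else 2 * k + 2 * (d r - d 1) - (d (r - 1) - d 1),
    ?_, ?_, ?_⟩
  · intro j hj hjr
    by_cases h : j ≤ r
    · simp only [if_pos h, ang]
      exact (hd j hj h).sub (hd 1 le_rfl (by omega))
    · simp only [if_neg h, ang]
      exact ((hk.const_mul 2).add (((hd r (by omega) le_rfl).sub
        (hd 1 le_rfl (by omega))).const_mul 2)).sub ((hd (r - 1) (by omega) (by omega)).sub
        (hd 1 le_rfl (by omega)))
  · simp only [if_pos (by omega : 1 ≤ r), sub_self]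
  · simp only [if_pos (by omega : r - 1 ≤ r), if_neg (by omega : ¬ r + 1 ≤ r)]
    unfold tau
    have := ((((hd (r - 1) (by omega) (by omega)).sub (hd r (by omega) le_rfl)).sub hk).div_const
      Real.pi).const_add (1 / 2 : ℝ)
    refine this.congr_deriv ?_
    field_simp
    ring

include C in
lemma vj_path {D : ℕ → ℝ} (hD : ∀ j, 1 ≤ j → j ≤ r + 1 →
    HasDerivAt (fun s => ang r (al s) s j) (D j) t) {j : ℕ} (hj : 1 ≤ j) (hjr : j + 1 ≤ r) :
    HasDerivAt (fun s => vj (ang r (al s) s) j)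
      (2 * ((ss (al t) t (j + 1) * D (j + 2) - ss (al t) t (j + 2) * D (j + 1)) -
        (ss (al t) t j * D (j + 1) - ss (al t) t (j + 1) * D j))) t := by
  obtain ⟨p1, p2, p3⟩ := C.angles_pos hj hjr
  obtain ⟨l1, l2⟩ := C.log_sines hj hjr
  have d0 := hD j hj (by omega)
  have d1 := hD (j + 1) (by omega) (by omega)
  have d2 := hD (j + 2) (by omega) (by omega)
  have e1 := (HH_deriv p1 (by linarith)).comp t ((d0.add d2).const_sub Real.pi)
  have e2 := (HH_deriv p2 (by linarith)).comp t ((d0.add d2).sub (d1.const_mul 2))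
  have e3 := (HH_deriv p3 (by linarith)).comp t (d1.const_mul 2)
  have e4 := ((e1.add e2).add e3).neg
  refine HasDerivAt.congr_deriv e4 ?_
  linear_combination (D j + D (j + 2)) * l1 - 2 * D (j + 1) * l2

lemma sum_tele (U : ℕ → ℝ) (n : ℕ) :
    ∑ j ∈ Finset.range n, (2 * (U (j + 2) - U (j + 1))) = 2 * (U (n + 1) - U 1) := by
  induction n with
  | zero => simp
  | succ n ih =>
    rw [Finset.sum_range_succ, ih]; ring_nf

include C in
lemma Lf_path {D : ℕ → ℝ} (hD : ∀ j, 1 ≤ j → j ≤ r + 1 →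
    HasDerivAt (fun s => ang r (al s) s j) (D j) t) (hD1 : D 1 = 0) :
    HasDerivAt (fun s => Lf r (ang r (al s) s))
      (4 * ss (al t) t r * (D (r + 1) - D (r - 1))) t := by
  have hr := C.hr
  have h1 : ∀ j ∈ Finset.range (r - 2), HasDerivAt (fun s => vj (ang r (al s) s) (j + 1))
      (2 * ((ss (al t) t (j + 2) * D (j + 3) - ss (al t) t (j + 3) * D (j + 2)) -
        (ss (al t) t (j + 1) * D (j + 2) - ss (al t) t (j + 2) * D (j + 1)))) t := by
    intro j hj
    rw [Finset.mem_range] at hj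
    exact vj_path C hD (by omega) (by omega)
  have h2 := HasDerivAt.fun_sum h1
  have h3 := vj_path C hD (j := r - 1) (by omega) (by omega)
  have h4 := (h2.const_mul 4).add (h3.const_mul 2)
  unfold Lf
  refine h4.congr_deriv ?_
  rw [sum_tele (fun j => ss (al t) t j * D (j + 1) - ss (al t) t (j + 1) * D j)]
  have s1 : ss (al t) t 1 = 0 := by unfold ss; ring
  have s2 : ss (al t) t (r + 1) = ss (al t) t (r - 1) := by
    unfold ss; rw [C.norm_eq]
  rw [show r - 2 + 1 = r - 1 by omega, show r - 1 + 1 = r by omega,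
    show r - 1 + 2 = r + 1 by omega, s1, hD1, s2]
  ring

include C hal in
lemma KK_path {τ' : ℝ} (hτ : HasDerivAt (fun s => tau r (al s) s) τ' t) :
    HasDerivAt (fun s => KK r (1 / r) (al s / Real.pi) (s / Real.pi) (tau r (al s) s))
      (-2 * ss (al t) t r * τ') t := by
  have hr := C.hr
  have hr0 := C.rpos
  have hpi := Real.pi_pos
  have ha := C.apos
  have hh : HasDerivAt (fun s => al s / Real.pi) (al' / Real.pi) t := hal.div_const _
  have hx : HasDerivAt (fun s : ℝ => s / Real.pi) (1 / Real.pi) t :=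
    (hasDerivAt_id t).div_const _
  have hev : ∀ᶠ s in nhds t, 0 < al s := hal.continuousAt.eventually (lt_mem_nhds ha)
  have hm := C.tau_mem
  have key : ∀ σ : ℝ, HasDerivAt (fun s => (GG (pt (al s / Real.pi)
      (s / Real.pi + σ * tau r (al s) s))).im)
      ((gg (pt (al t / Real.pi) (t / Real.pi + σ * tau r (al t) t))).re *
        (1 / Real.pi + σ * τ') + (gg (pt (al t / Real.pi)
        (t / Real.pi + σ * tau r (al t) t))).im * (al' / Real.pi)) t := by
    intro σ
    have h1 : HasDerivAt (fun s => pt (al s / Real.pi) (s / Real.pi + σ * tau r (al s) s))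
        (((al' / Real.pi : ℝ) : ℂ) + ((1 / Real.pi + σ * τ' : ℝ) : ℂ) * I) t := by
      unfold pt
      exact hh.ofReal_comp.add (((hx.add (hτ.const_mul σ)).ofReal_comp).mul_const I)
    have h2 := (GG_deriv (z := pt (al t / Real.pi) (t / Real.pi + σ * tau r (al t) t))
      (by rw [pt_re]; positivity)).comp t h1
    have h3 := hasDerivAt_im h2
    refine HasDerivAt.congr_deriv h3 ?_
    rw [mul_im, re_mk, im_mk]
  have h1 := key 1
  have h2 := key (-1)
  have h3 := (ll_deriv hm.1 (by linarith)).comp_of_eq t hτ rfl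
  have h4 := ((hx.sub_const (1 / (r : ℝ))).const_mul (2 * Real.pi * r)).mul hh
  have h5 := (h4.sub (h3.const_mul 2)).add (h1.sub h2)
  have hd := C.gg_diff
  have hs := C.re_sum
  have e0 : HasDerivAt (fun s => KK r (1 / r) (al s / Real.pi) (s / Real.pi) (tau r (al s) s))
      (2 * Real.pi * r * (1 / Real.pi) * (al t / Real.pi) + 2 * Real.pi * r * (t / Real.pi - 1 / r) *
        (al' / Real.pi) - 2 * (Real.log (2 * Real.sin (Real.pi * tau r (al t) t)) * τ') +
      ((gg (pt (al t / Real.pi) (t / Real.pi + 1 * tau r (al t) t))).re *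
        (1 / Real.pi + 1 * τ') + (gg (pt (al t / Real.pi)
        (t / Real.pi + 1 * tau r (al t) t))).im * (al' / Real.pi) -
        ((gg (pt (al t / Real.pi) (t / Real.pi + (-1) * tau r (al t) t))).re *
        (1 / Real.pi + (-1) * τ') + (gg (pt (al t / Real.pi)
        (t / Real.pi + (-1) * tau r (al t) t))).im * (al' / Real.pi)))) t := by
    refine h5.congr_of_eventuallyEq ?_
    filter_upwards [hev] with s hs
    unfold KK
    rw [win_eq (by positivity)]
    simp only [one_mul, neg_mul, ← sub_eq_add_neg, Pi.add_apply, Pi.sub_apply, Pi.mul_apply,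
      Function.comp]
  refine e0.congr_deriv ?_
  rw [one_mul, neg_one_mul, ← sub_eq_add_neg]
  set gp := gg (pt (al t / Real.pi) (t / Real.pi + tau r (al t) t))
  set gm := gg (pt (al t / Real.pi) (t / Real.pi - tau r (al t) t))
  have hre := congrArg Complex.re hd
  have him := congrArg Complex.im hd
  have i1 : (-2 * (r : ℂ) * bt (al t) t + 2 * Real.pi * I).re = -2 * r * al t := by
    rw [show (-2 * (r : ℂ) * bt (al t) t + 2 * Real.pi * I) =
      ((-2 * r * al t : ℝ) : ℂ) + ((-2 * r * t + 2 * Real.pi : ℝ) : ℂ) * I by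
        unfold bt; push_cast; ring, re_mk]
  have i2 : (-2 * (r : ℂ) * bt (al t) t + 2 * Real.pi * I).im = -2 * r * t + 2 * Real.pi := by
    rw [show (-2 * (r : ℂ) * bt (al t) t + 2 * Real.pi * I) =
      ((-2 * r * al t : ℝ) : ℂ) + ((-2 * r * t + 2 * Real.pi : ℝ) : ℂ) * I by
        unfold bt; push_cast; ring, im_mk]
  rw [sub_re, i1] at hre
  rw [sub_im, i2] at him
  have e1 : gp.re = gm.re - 2 * r * al t := by linarith
  have e2 : gp.im = gm.im - 2 * r * t + 2 * Real.pi := by linarith
  have e3 : -2 * ss (al t) t r = gp.re + gm.re -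
    2 * Real.log (2 * Real.sin (Real.pi * tau r (al t) t)) := by linarith
  rw [e3, e1, e2]
  field_simp
  ring

include C hal in
/-- the difference of the two sides has derivative `0` along the curve -/
lemma diff_path : HasDerivAt (fun s => Lf r (ang r (al s) s) -
    4 * Real.pi * KK r (1 / r) (al s / Real.pi) (s / Real.pi) (tau r (al s) s)) 0 t := by
  obtain ⟨D, hD, hD1, hτ⟩ := ang_path C hal
  have h1 := Lf_path C hD hD1
  have h2 := KK_path C hal hτ
  have h3 := h1.sub (h2.const_mul (4 * Real.pi))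
  refine h3.congr_deriv ?_
  have hpi := Real.pi_pos
  field_simp
  ring

end path

end Pool.Agent.Helper66.GF
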