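import Pool.Agent.Helper66.GF.Dilog

/-!
# Relations on the curve for the saddle function
-/

namespace Pool.Agent.Helper66.GF

open Complex MeasureTheory
open Pool.Agent.Helper9.TB (ee ll win KK)

lemma pi_pt_add (a b t : ℝ) : (Real.pi : ℂ) * pt (a / Real.pi) (b / Real.pi + t) =
    bt a b + (Real.pi * t : ℝ) * I := by
  have hpi : (Real.pi : ℂ) ≠ 0 := by exact_mod_cast Real.pi_ne_zero
  unfold pt bt
  push_cast
  field_simp
  ring

lemma pi_pt_sub (a b t : ℝ) : (Real.pi : ℂ) * pt (a / Real.pi) (b / Real.pi - t) =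
    bt a b - (Real.pi * t : ℝ) * I := by
  have h := pi_pt_add a b (-t)
  rw [← sub_eq_add_neg] at h
  rw [h]
  push_cast
  ring

lemma exp_gg_add {a : ℝ} (ha : 0 < a) (b t : ℝ) :
    exp (gg (pt (a / Real.pi) (b / Real.pi + t))) =
      exp (bt a b) * exp ((Real.pi * t : ℝ) * I) + exp (-bt a b) * exp (-((Real.pi * t : ℝ) * I)) := by
  have hz : 0 < (pt (a / Real.pi) (b / Real.pi + t)).re := by
    rw [pt_re]; have := Real.pi_pos; positivity
  rw [exp_gg hz, pi_pt_add, Complex.cosh, ← exp_add, ← exp_add]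
  ring_nf

lemma exp_gg_sub {a : ℝ} (ha : 0 < a) (b t : ℝ) :
    exp (gg (pt (a / Real.pi) (b / Real.pi - t))) =
      exp (bt a b) * exp (-((Real.pi * t : ℝ) * I)) + exp (-bt a b) * exp ((Real.pi * t : ℝ) * I) := by
  have hz : 0 < (pt (a / Real.pi) (b / Real.pi - t)).re := by
    rw [pt_re]; have := Real.pi_pos; positivity
  rw [exp_gg hz, pi_pt_sub, Complex.cosh, ← exp_add, ← exp_add]
  ring_nf

lemma prod_gg {a : ℝ} (ha : 0 < a) (b t : ℝ) :
    exp (gg (pt (a / Real.pi) (b / Real.pi + t))) * exp (gg (pt (a / Real.pi) (b / Real.pi - t))) =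
      2 * Complex.cosh (2 * bt a b) + ((2 * Real.cos (2 * Real.pi * t) : ℝ) : ℂ) := by
  rw [exp_gg_add ha, exp_gg_sub ha]
  have e1 : ((2 * Real.cos (2 * Real.pi * t) : ℝ) : ℂ) =
      exp ((Real.pi * t : ℝ) * I) * exp ((Real.pi * t : ℝ) * I) +
      exp (-((Real.pi * t : ℝ) * I)) * exp (-((Real.pi * t : ℝ) * I)) := by
    rw [ofReal_mul, ofReal_cos, Complex.cos, ← exp_add, ← exp_add]
    push_cast
    ring_nf
  have e2 : 2 * Complex.cosh (2 * bt a b) = exp (bt a b) * exp (bt a b) +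
      exp (-bt a b) * exp (-bt a b) := by
    rw [Complex.cosh, ← exp_add, ← exp_add]
    ring_nf
  have e3 : exp (bt a b) * exp (-bt a b) = 1 := by rw [← exp_add]; simp
  have e4 : exp ((Real.pi * t : ℝ) * I) * exp (-((Real.pi * t : ℝ) * I)) = 1 := by
    rw [← exp_add]; simp
  rw [e1, e2]
  linear_combination (exp (bt a b) * exp (bt a b) + exp (-bt a b) * exp (-bt a b)) * e4 +
    (exp ((Real.pi * t : ℝ) * I) * exp ((Real.pi * t : ℝ) * I) +
      exp (-((Real.pi * t : ℝ) * I)) * exp (-((Real.pi * t : ℝ) * I))) * e3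

lemma EE_exp (a b : ℝ) (j : ℕ) : 2 * EE a b j = exp (j * bt a b) - exp (-(j * bt a b)) := by
  unfold EE
  rw [Complex.sinh]
  ring

namespace Crv

variable {r : ℕ} {a b : ℝ} (C : Crv r a b)

include C

lemma gg_diff : gg (pt (a / Real.pi) (b / Real.pi + tau r a b)) -
    gg (pt (a / Real.pi) (b / Real.pi - tau r a b)) = -2 * r * bt a b + 2 * Real.pi * I := by
  have hr := C.hr
  have ha := C.apos
  have hpi := Real.pi_pos
  set τ := tau r a b with hτ
  have hT := C.T_eq
  rw [← hτ] at hT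
  have e1 := exp_gg_add ha b τ
  have e2 := exp_gg_sub ha b τ
  set x := exp (bt a b) with hx
  set t := exp ((Real.pi * τ : ℝ) * I) with ht
  have hx0 : x ≠ 0 := exp_ne_zero _
  have ht0 : t ≠ 0 := exp_ne_zero _
  have e3 : exp (-bt a b) = x⁻¹ := by rw [exp_neg]
  have e4 : exp (-((Real.pi * τ : ℝ) * I)) = t⁻¹ := by rw [exp_neg]
  rw [e3, e4] at e1 e2
  have hTt : exp (((2 * Real.pi * τ : ℝ) : ℂ) * I) = t ^ 2 := by
    rw [ht, ← exp_nat_mul]; congr 1; push_cast; ring
  set X := exp (r * bt a b) with hX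
  have hX0 : X ≠ 0 := exp_ne_zero _
  have f1 : 2 * EE a b (r + 1) = X * x - (X * x)⁻¹ := by
    rw [EE_exp, hX, hx, ← exp_add, ← exp_neg]
    congr 2 <;> push_cast <;> ring
  have f2 : 2 * EE a b (r - 1) = X * x⁻¹ - X⁻¹ * x := by
    rw [EE_exp, hX, hx, ← exp_neg, ← exp_neg, ← exp_add, ← exp_add, Nat.cast_sub (by omega)]
    congr 2 <;> push_cast <;> ring
  rw [hTt] at hT
  have key : exp (gg (pt (a / Real.pi) (b / Real.pi + τ))) =
      (X ^ 2)⁻¹ * exp (gg (pt (a / Real.pi) (b / Real.pi - τ))) := by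
    rw [e1, e2]
    have h5 : t ^ 2 * (X * x - (X * x)⁻¹) = -(X * x⁻¹ - X⁻¹ * x) := by
      rw [← f1, ← f2]; linear_combination 2 * hT
    field_simp
    field_simp at h5
    linear_combination h5
  have h6 : exp (gg (pt (a / Real.pi) (b / Real.pi + τ)) -
      gg (pt (a / Real.pi) (b / Real.pi - τ)) + 2 * r * bt a b) = 1 := by
    rw [exp_add, exp_sub, key]
    have : exp (2 * r * bt a b) = X ^ 2 := by
      rw [hX, ← exp_nat_mul]; congr 1; push_cast; ring
    rw [this]
    have hne := exp_ne_zero (gg (pt (a / Real.pi) (b / Real.pi - τ)))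
    field_simp
  obtain ⟨n, hn⟩ := exp_eq_one_iff.1 h6
  have him := congrArg Complex.im hn
  have hm := C.tau_mem
  rw [← hτ] at hm
  have hw := gg_im_window (h := a / Real.pi) (by positivity) (x := b / Real.pi) hm.1 hm.2
  have i1 : (2 * (r : ℂ) * bt a b).im = 2 * (r * b) := by
    rw [show (2 * (r : ℂ) * bt a b) = ((2 * r : ℝ) : ℂ) * bt a b by push_cast; ring, im_ofReal_mul,
      bt_im]
    ring
  have i2 : ((n : ℂ) * (2 * Real.pi * I)).im = n * (2 * Real.pi) := by
    rw [show (n : ℂ) * (2 * Real.pi * I) = ((n * (2 * Real.pi) : ℝ) : ℂ) * I by push_cast; ring,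
      mul_I_im, ofReal_re]
  rw [add_im, sub_im, i1, i2] at him
  have hb1 := C.blo
  have hb2 := C.bhi
  have n1 : n = 1 := by
    have hlo : (0 : ℝ) < n := by
      by_contra hneg
      push Not at hneg
      nlinarith
    have hhi : (n : ℝ) < 2 := by
      by_contra hneg
      push Not at hneg
      nlinarith
    have h1 : 0 < n := by exact_mod_cast hlo
    have h2 : n < 2 := by exact_mod_cast hhi
    omega
  rw [n1] at hn
  push_cast at hn
  linear_combination hn

/-- the basic relation between `τ` and `β` -/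
lemma rel_tau : (2 * Complex.cosh (2 * bt a b) +
    ((2 * Real.cos (2 * Real.pi * tau r a b) : ℝ) : ℂ)) * EE a b r ^ 2 =
    -(((2 - 2 * Real.cos (2 * Real.pi * tau r a b) : ℝ) : ℂ) * EE a b 1 ^ 2) := by
  have hr := C.hr
  obtain ⟨n, rfl⟩ : ∃ n, r = n + 1 := ⟨r - 1, by omega⟩
  set τ := tau (n + 1) a b with hτ
  have hT := C.T_eq
  rw [← hτ] at hT
  simp only [Nat.add_sub_cancel] at hT
  rw [show n + 1 + 1 = n + 2 by ring] at hT
  have hadd := EE_add a b n
  have hmul := EE_mul a b n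
  have hP : EE a b (n + 2) ≠ 0 := C.EEne (by omega) (by omega)
  have hQ : EE a b n ≠ 0 := C.EEne (by omega) (by omega)
  set T := exp (((2 * Real.pi * τ : ℝ) : ℂ) * I) with hTdef
  have hT0 : T ≠ 0 := exp_ne_zero _
  have hc : 4 * ch a b ^ 2 = 2 * Complex.cosh (2 * bt a b) + 2 := by
    unfold ch
    rw [Complex.cosh_two_mul]
    have := Complex.cosh_sq (bt a b)
    linear_combination 2 * this
  have h2cos : ((2 * Real.cos (2 * Real.pi * τ) : ℝ) : ℂ) = T + T⁻¹ := by
    rw [ofReal_mul, ofReal_cos, Complex.cos, hTdef, ← exp_neg]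
    push_cast
    ring_nf
  have h2cos' : ((2 - 2 * Real.cos (2 * Real.pi * τ) : ℝ) : ℂ) = 2 - (T + T⁻¹) := by
    rw [ofReal_sub, h2cos]; push_cast; ring
  rw [h2cos, h2cos']
  set P := EE a b (n + 2)
  set Q := EE a b n
  set R := EE a b (n + 1)
  set F := EE a b 1
  have t1 : T * (P * Q) = -Q ^ 2 := by linear_combination Q * hT
  have t2 : T⁻¹ * (P * Q) = -P ^ 2 := by
    have : T⁻¹ * Q = -P := by
      have : Q = -(T * P) := by linear_combination hT
      rw [this]; field_simp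
    linear_combination P * this
  have hPQ : P * Q ≠ 0 := mul_ne_zero hP hQ
  apply mul_left_cancel₀ hPQ
  linear_combination (R ^ 2 - F ^ 2) * t1 + (R ^ 2 - F ^ 2) * t2 +
    (-(P * Q) * R ^ 2) * hc + (4 * ch a b ^ 2 * R ^ 2) * hmul -
      (R ^ 2 - F ^ 2) * ((P + Q) + 2 * ch a b * R) * hadd

lemma re_sum : (gg (pt (a / Real.pi) (b / Real.pi + tau r a b))).re +
    (gg (pt (a / Real.pi) (b / Real.pi - tau r a b))).re -
    2 * Real.log (2 * Real.sin (Real.pi * tau r a b)) = -2 * ss a b r := by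
  have hr := C.hr
  have hpi := Real.pi_pos
  have h1 := C.rel_tau
  rw [← prod_gg C.apos] at h1
  have hm := C.tau_mem
  set τ := tau r a b with hτ
  have hs : 0 < Real.sin (Real.pi * τ) :=
    Real.sin_pos_of_pos_of_lt_pi (by nlinarith) (by nlinarith)
  have h2 : 2 - 2 * Real.cos (2 * Real.pi * τ) = (2 * Real.sin (Real.pi * τ)) ^ 2 := by
    rw [show 2 * Real.pi * τ = 2 * (Real.pi * τ) by ring, Real.cos_two_mul]
    have := Real.sin_sq_add_cos_sq (Real.pi * τ)
    linear_combination -4 * this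
  rw [h2] at h1
  have h3 := congrArg (fun z : ℂ => ‖z‖) h1
  simp only [norm_mul, norm_neg, norm_pow, norm_exp, norm_real] at h3
  have nR := C.norm_pos (j := r) (by omega) (by omega)
  have nF := C.norm_pos (j := 1) (by omega) (by omega)
  have h4 := congrArg Real.log h3
  rw [Real.norm_of_nonneg hs.le, Real.norm_of_nonneg (zero_le_two : (0 : ℝ) ≤ 2)] at h4
  rw [Real.log_mul (by positivity) (by positivity), Real.log_mul (by positivity) (by positivity),
    Real.log_mul (by positivity) (by positivity), Real.log_exp, Real.log_exp, Real.log_pow,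
    Real.log_pow, Real.log_pow] at h4
  unfold ss
  push_cast at h4
  linarith

end Crv

end Pool.Agent.Helper66.GF
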